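import Mathlib

/-!
Hamilton cycles as cyclic permutations, and the reduction from directed to undirected graphs.
-/

namespace Pool.Agent.MP_6b3410_lc.H5

/-- `σ` is one cycle through all points, along arcs -/
structure Cyc {V : Type*} (Arc : V → V → Prop) (σ : V → V) : Prop where
  inj : Function.Injective σ
  arc : ∀ v, Arc v (σ v)
  clo : ∀ S : Set V, S.Nonempty → (∀ v ∈ S, σ v ∈ S) → ∀ v, v ∈ S

def DHam {V : Type*} (Arc : V → V → Prop) : Prop := ∃ σ, Cyc Arc σ

lemma DHam.equiv {V W : Type*} {Arc : V → V → Prop} {Arc' : W → W → Prop} (e : V ≃ W)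
    (h : ∀ a b, Arc a b → Arc' (e a) (e b)) (hV : DHam Arc) : DHam Arc' := by
  obtain ⟨σ, h1, h2, h3⟩ := hV
  refine ⟨fun w => e (σ (e.symm w)), e.injective.comp (h1.comp e.symm.injective), fun w => ?_, ?_⟩
  · simpa using h _ _ (h2 (e.symm w))
  · rintro S ⟨w0, hw0⟩ hS w
    have := h3 (e ⁻¹' S) ⟨e.symm w0, by simpa using hw0⟩
      (fun v hv => by simpa using hS (e v) hv) (e.symm w)
    simpa using this

lemma Cyc.of_rank {V : Type*} [Finite V] {Arc : V → V → Prop} {σ : V → V}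
    (hinj : Function.Injective σ) (harc : ∀ v, Arc v (σ v)) (ρ : V → ℕ) (last : V)
    (hρ : ∀ v, v ≠ last → ρ v < ρ (σ v)) : Cyc Arc σ := by
  refine ⟨hinj, harc, fun S hS hcl => ?_⟩
  have hl : last ∈ S := by
    obtain ⟨v, hv, hmax⟩ := Set.exists_max_image S ρ (Set.toFinite S) hS
    by_cases h : v = last
    · exact h ▸ hv
    · exact absurd (hmax _ (hcl v hv)) (not_le.2 (hρ v h))
  by_contra hcon
  push Not at hcon
  obtain ⟨v, hv, hmin⟩ := Set.exists_min_image Sᶜ ρ (Set.toFinite _) hcon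
  obtain ⟨u, rfl⟩ := (Finite.injective_iff_surjective.1 hinj) v
  have hu : u ∉ S := fun h => hv (hcl u h)
  exact absurd (hmin u hu) (not_le.2 (hρ u fun h => hu (h ▸ hl)))

lemma Cyc.no_two {V : Type*} {Arc : V → V → Prop} {σ : V → V} (h : Cyc Arc σ)
    (a b c : V) (hab : a ≠ b) (hac : a ≠ c) (hbc : b ≠ c) (x : V) : σ (σ x) ≠ x := by
  intro hx
  have := h.clo {x, σ x} ⟨x, by simp⟩ (by
    rintro v (rfl | rfl)
    · simp
    · simp [hx])
  have ha := this a
  have hb := this b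
  have hc := this c
  simp only [Set.mem_insert_iff, Set.mem_singleton_iff] at ha hb hc
  grind

lemma Cyc.no_three {V : Type*} {Arc : V → V → Prop} {σ : V → V} (h : Cyc Arc σ)
    (a b c d : V) (hab : a ≠ b) (hac : a ≠ c) (hbc : b ≠ c) (had : a ≠ d) (hbd : b ≠ d)
    (hcd : c ≠ d) (x : V) : σ (σ (σ x)) ≠ x := by
  intro hx
  have := h.clo {x, σ x, σ (σ x)} ⟨x, by simp⟩ (by
    rintro v (rfl | rfl | rfl)
    · simp
    · simp
    · simp [hx])
  have ha := this a
  have hb := this b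
  have hc := this c
  have hd := this d
  simp only [Set.mem_insert_iff, Set.mem_singleton_iff] at ha hb hc hd
  grind

lemma Cyc.rev {V : Type*} [Finite V] {Arc : V → V → Prop} {σ : V → V} (h : Cyc Arc σ) :
    ∃ τ, (∀ x, τ (σ x) = x) ∧ Cyc (fun a b => Arc b a) τ := by
  let e := Equiv.ofBijective σ ⟨h.inj, Finite.injective_iff_surjective.1 h.inj⟩
  have h1 : ∀ x, e.symm (σ x) = x := e.symm_apply_apply
  have h2 : ∀ x, σ (e.symm x) = x := e.apply_symm_apply
  refine ⟨e.symm, h1, e.symm.injective, fun v => by simpa [h2] using h.arc (e.symm v), ?_⟩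
  rintro S ⟨w, hw⟩ hS v
  by_contra hv
  exact h.clo Sᶜ ⟨v, hv⟩ (fun x hx hx' => hx (by simpa [h1] using hS _ hx')) w hw

section graph

variable {V : Type*} [Fintype V] [DecidableEq V] {G : SimpleGraph V}

lemma dham_of_isHamiltonian (hn : 3 ≤ Fintype.card V) (h : G.IsHamiltonian) : DHam G.Adj := by
  obtain ⟨a, p, hp⟩ := h (by omega)
  have hl := hp.length_eq
  have hex : ∀ v, ∃ i, i < p.length ∧ p.getVert i = v := by
    intro v
    obtain ⟨i, hi, hi'⟩ := SimpleGraph.Walk.mem_support_iff_exists_getVert.1 (hp.mem_support v)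
    rcases hi'.lt_or_eq with h | h
    · exact ⟨i, h, hi⟩
    · exact ⟨0, by omega, by rw [← hi, h]; simp⟩
  choose idx hidx hidx' using hex
  have hid : ∀ i, i < p.length → idx (p.getVert i) = i := by
    intro i hi
    have := hidx (p.getVert i)
    exact hp.isCycle.getVert_injOn' (by simp only [Set.mem_ofPred_eq]; omega)
      (by simp only [Set.mem_ofPred_eq]; omega) (hidx' _)
  refine ⟨fun v => p.getVert (idx v + 1), fun u v huv => ?_, fun v => ?_, ?_⟩
  · have h1 := hidx u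
    have h2 := hidx v
    have := hp.isCycle.getVert_injOn (by simp only [Set.mem_ofPred_eq]; omega)
      (by simp only [Set.mem_ofPred_eq]; omega) huv
    rw [← hidx' u, ← hidx' v, show idx u = idx v by omega]
  · have := p.adj_getVert_succ (hidx v)
    rwa [hidx'] at this
  · rintro S ⟨w, hw⟩ hS v
    have key : ∀ i, p.getVert i ∈ S → ∀ j, i + j ≤ p.length → p.getVert (i + j) ∈ S := by
      intro i hi j
      induction j with
      | zero => intro _; exact hi
      | succ j ih =>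
        intro hj
        have := hS _ (ih (by omega))
        rwa [hid _ (by omega)] at this
    have h1 := key (idx w) (by rwa [hidx']) (p.length - idx w) (by have := hidx w; omega)
    rw [Nat.add_sub_cancel' (hidx w).le, p.getVert_length] at h1
    have h2 := key 0 (by simpa using h1) (idx v) (by have := hidx v; omega)
    rwa [Nat.zero_add, hidx'] at h2

/-- the walk following `σ` -/
def wk (σ : V → V) (h : ∀ v, G.Adj v (σ v)) : (m : ℕ) → (v : V) → G.Walk v (σ^[m] v)
  | 0, _ => SimpleGraph.Walk.nil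
  | m + 1, v => SimpleGraph.Walk.cons (h v) (wk σ h m (σ v))

omit [Fintype V] [DecidableEq V] in
lemma wk_length (σ : V → V) (h : ∀ v, G.Adj v (σ v)) (m : ℕ) (v : V) :
    (wk σ h m v).length = m := by
  induction m generalizing v with
  | zero => rfl
  | succ m ih => simp [wk, ih]

omit [Fintype V] [DecidableEq V] in
lemma wk_getVert (σ : V → V) (h : ∀ v, G.Adj v (σ v)) (m : ℕ) (v : V) (i : ℕ) (hi : i ≤ m) :
    (wk σ h m v).getVert i = σ^[i] v := by
  induction m generalizing v i with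
  | zero => obtain rfl : i = 0 := by omega
            rfl
  | succ m ih =>
    rcases i with _ | i
    · simp
    · simp only [wk, SimpleGraph.Walk.getVert_cons_succ]
      exact ih _ _ (by omega)

lemma isHamiltonian_of_dham (hn : 3 ≤ Fintype.card V) (h : DHam G.Adj) : G.IsHamiltonian := by
  obtain ⟨σ, hσ⟩ := h
  intro _
  obtain ⟨a⟩ : Nonempty V := Fintype.card_pos_iff.1 (by omega)
  have hper : a ∈ Function.periodicPts σ := hσ.inj.mem_periodicPts a
  have hT : 0 < Function.minimalPeriod σ a := Function.minimalPeriod_pos_of_mem_periodicPts hper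
  have hinj := Function.iterate_injOn_Iio_minimalPeriod (f := σ) (x := a)
  have hit := Function.iterate_minimalPeriod (f := σ) (x := a)
  set T := Function.minimalPeriod σ a with hTdef
  have hall := hσ.clo {v | ∃ i, i < T ∧ σ^[i] a = v} ⟨a, 0, hT, rfl⟩ (by
    rintro v ⟨i, hi, rfl⟩
    rcases (Nat.succ_le_of_lt hi).lt_or_eq with h | h
    · exact ⟨i + 1, h, Function.iterate_succ_apply' _ _ _⟩
    · refine ⟨0, hT, ?_⟩
      rw [← Function.iterate_succ_apply' σ, h, hit]; rfl)
  have hcard : T = Fintype.card V := by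
    rw [← Fintype.card_fin T]
    refine Fintype.card_of_bijective (f := fun i : Fin T => σ^[i] a) ⟨fun i j hij => ?_, fun v => ?_⟩
    · exact Fin.ext (hinj i.2 j.2 hij)
    · obtain ⟨i, hi, h⟩ := hall v
      exact ⟨⟨i, hi⟩, h⟩
  refine ⟨a, (wk σ hσ.arc T a).copy rfl hit, ?_⟩
  have hlen : ((wk σ hσ.arc T a).copy rfl hit).length = T := by simp [wk_length]
  rw [SimpleGraph.Walk.isHamiltonianCycle_iff_isCycle_and_length_eq,
    SimpleGraph.Walk.isCycle_iff_isPath_tail_and_le_length, hlen]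
  refine ⟨⟨?_, by omega⟩, hcard⟩
  rw [← SimpleGraph.Walk.IsPath.getVert_injOn_iff]
  have hl2 : ((wk σ hσ.arc T a).copy rfl hit).tail.length + 1 = T := by
    rw [SimpleGraph.Walk.length_tail_add_one, hlen]
    rw [SimpleGraph.Walk.not_nil_iff_lt_length, hlen]; exact hT
  intro i hi j hj hij
  simp only [Set.mem_ofPred_eq] at hi hj
  rw [SimpleGraph.Walk.getVert_tail, SimpleGraph.Walk.getVert_tail,
    SimpleGraph.Walk.getVert_copy, SimpleGraph.Walk.getVert_copy,
    wk_getVert _ _ _ _ _ (by omega), wk_getVert _ _ _ _ _ (by omega),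
    Function.iterate_succ_apply', Function.iterate_succ_apply'] at hij
  exact hinj (show i < T by omega) (show j < T by omega) (hσ.inj hij)

end graph

section split

variable {V : Type*} (Arc : V → V → Prop) (len : V → ℕ)

/-- every vertex becomes a path with at least three vertices -/
abbrev Spl : Type _ := Σ v : V, Fin (len v + 3)

variable {len}

lemma Spl.ext {p q : Spl len} (h1 : p.1 = q.1) (h2 : p.2.val = q.2.val) : p = q := by
  obtain ⟨u, i⟩ := p
  obtain ⟨v, j⟩ := q
  dsimp only at h1 h2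
  subst h1
  rw [Fin.ext h2]

/-- one forward step in the split graph -/
def St (p q : Spl len) : Prop :=
  (p.1 = q.1 ∧ p.2.val + 1 = q.2.val) ∨ (p.2.val = len p.1 + 2 ∧ q.2.val = 0 ∧ Arc p.1 q.1)

variable {Arc}

lemma split_of_dham [Finite V] (h : DHam Arc) : DHam (St (len := len) Arc) := by
  obtain ⟨σ, hσ⟩ := h
  let σ' : Spl len → Spl len := fun p =>
    if h : p.2.val < len p.1 + 2 then ⟨p.1, ⟨p.2.val + 1, by omega⟩⟩ else ⟨σ p.1, ⟨0, by omega⟩⟩
  have h1 : ∀ p : Spl len, p.2.val < len p.1 + 2 →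
      (σ' p).1 = p.1 ∧ (σ' p).2.val = p.2.val + 1 := by
    intro p hp; simp only [σ']; rw [dif_pos hp]; exact ⟨rfl, rfl⟩
  have h2 : ∀ p : Spl len, ¬ p.2.val < len p.1 + 2 →
      (σ' p).1 = σ p.1 ∧ (σ' p).2.val = 0 := by
    intro p hp; simp only [σ']; rw [dif_neg hp]; exact ⟨rfl, rfl⟩
  refine ⟨σ', fun p q hpq => ?_, fun p => ?_, ?_⟩
  · have e1 : (σ' p).1 = (σ' q).1 := by rw [hpq]
    have e2 : (σ' p).2.val = (σ' q).2.val := by rw [hpq]
    by_cases hp : p.2.val < len p.1 + 2 <;> by_cases hq : q.2.val < len q.1 + 2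
    · rw [(h1 p hp).1, (h1 q hq).1] at e1
      rw [(h1 p hp).2, (h1 q hq).2] at e2
      exact Spl.ext e1 (by omega)
    · rw [(h1 p hp).2, (h2 q hq).2] at e2; omega
    · rw [(h2 p hp).2, (h1 q hq).2] at e2; omega
    · rw [(h2 p hp).1, (h2 q hq).1] at e1
      have e3 := hσ.inj e1
      have e4 : len p.1 = len q.1 := by rw [e3]
      have := p.2.2
      have := q.2.2
      exact Spl.ext e3 (by omega)
  · by_cases hp : p.2.val < len p.1 + 2
    · exact Or.inl ⟨(h1 p hp).1.symm, (h1 p hp).2.symm⟩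
    · have := p.2.2
      exact Or.inr ⟨by omega, (h2 p hp).2, (h2 p hp).1 ▸ hσ.arc _⟩
  · rintro S ⟨p0, hp0⟩ hS p
    have key : ∀ p ∈ S, ∀ j : ℕ, ∀ q : Spl len, q.1 = p.1 → q.2.val = p.2.val + j → q ∈ S := by
      intro p hp j
      induction j with
      | zero => intro q e1 e2; exact Spl.ext e1 e2 ▸ hp
      | succ j ih =>
        intro q e1 e2
        have hq := q.2.2
        have h3 := hS _ (ih ⟨q.1, ⟨p.2.val + j, by omega⟩⟩ e1 rfl)
        have h4 := h1 ⟨q.1, ⟨p.2.val + j, by omega⟩⟩ (by dsimp only; omega)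
        exact Spl.ext (q := q) h4.1 (by rw [h4.2, e2]; rfl) ▸ h3
    have key2 : ∀ p ∈ S, (⟨σ p.1, ⟨0, by omega⟩⟩ : Spl len) ∈ S := by
      intro p hp
      have := p.2.2
      have h3 := hS _ (key p hp (len p.1 + 2 - p.2.val) ⟨p.1, ⟨len p.1 + 2, by omega⟩⟩ rfl
        (by dsimp only; omega))
      have h4 := h2 ⟨p.1, ⟨len p.1 + 2, by omega⟩⟩ (by dsimp only; omega)
      exact Spl.ext (q := ⟨σ p.1, ⟨0, by omega⟩⟩) h4.1 h4.2 ▸ h3
    have h3 := hσ.clo {v | (⟨v, ⟨0, by omega⟩⟩ : Spl len) ∈ S} ⟨_, key2 p0 hp0⟩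
      (fun v hv => key2 _ hv) p.1
    exact key _ h3 p.2.val p rfl (by simp)

lemma forward [Finite V] {σ : Spl len → Spl len}
    (hσ : Cyc (fun p q => St Arc p q ∨ St Arc q p) σ) (p0 : Spl len) (hp0 : St Arc p0 (σ p0)) :
    DHam Arc := by
  have : Finite (Spl len) := inferInstance
  have hsurj := Finite.injective_iff_surjective.1 hσ.inj
  have h2 := hσ.no_two ⟨p0.1, ⟨0, by omega⟩⟩ ⟨p0.1, ⟨1, by omega⟩⟩ ⟨p0.1, ⟨2, by omega⟩⟩
    (by simp) (by simp) (by simp)
  have hall : ∀ p, St Arc p (σ p) := by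
    refine hσ.clo {p | St Arc p (σ p)} ⟨p0, hp0⟩ fun p hp => ?_
    simp only [Set.mem_ofPred_eq] at hp ⊢
    set q := σ p with hq
    rcases hσ.arc q with h | h
    · exact h
    rcases Nat.eq_zero_or_pos q.2.val with h0 | h0
    · let x : Spl len := ⟨q.1, ⟨1, by omega⟩⟩
      obtain ⟨y, hy⟩ := hsurj x
      have hnb : ∀ z : Spl len, (St Arc x z ∨ St Arc z x) → z = q ∨ (z.1 = q.1 ∧ z.2.val = 2) := by
        rintro z ((⟨e1, e2⟩ | ⟨e1, -, -⟩) | (⟨e1, e2⟩ | ⟨-, e1, -⟩))
        · exact Or.inr ⟨e1.symm, e2.symm⟩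
        · simp [x] at e1
        · exact Or.inl (Spl.ext e1 (by simp only [x] at e2; omega))
        · simp [x] at e1
      have e1 := hnb (σ x) (hσ.arc x)
      have e2 := hnb y (by have := hσ.arc y; rw [hy] at this; exact this.symm)
      rcases e2 with e2 | e2
      · rw [← e2, hy, e2]
        exact Or.inl ⟨rfl, by simp [x, h0]⟩
      rcases e1 with e1 | e1
      · have e3 : x = p := hσ.inj (e1.trans hq)
        rw [← e3] at hp
        rcases hp with ⟨-, e4⟩ | ⟨e4, -, -⟩
        · simp only [x] at e4; omega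
        · simp [x] at e4
      · exfalso
        have e3 : σ x = y := Spl.ext (e1.1.trans e2.1.symm) (e1.2.trans e2.2.symm)
        exact h2 x (by rw [e3, hy])
    · exfalso
      refine h2 p ?_
      rcases hp with ⟨e1, e2⟩ | ⟨-, e2, -⟩
      · rcases h with ⟨e3, e4⟩ | ⟨-, e4, -⟩
        · exact Spl.ext (e3.trans e1.symm) (by rw [← hq]; omega)
        · omega
      · omega
  let lst : V → Spl len := fun v => ⟨v, ⟨len v + 2, by omega⟩⟩
  have hl : ∀ v, (σ (lst v)).2.val = 0 ∧ Arc v (σ (lst v)).1 := by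
    intro v
    rcases hall (lst v) with ⟨e1, e2⟩ | ⟨-, e2, e3⟩
    · have h3 := (σ (lst v)).2.2
      have h4 : len (σ (lst v)).1 = len v := by rw [← e1]
      simp only [lst] at e2 h3 h4
      omega
    · exact ⟨e2, e3⟩
  refine ⟨fun v => (σ (lst v)).1, fun u v huv => ?_, fun v => (hl v).2, ?_⟩
  · exact congrArg Sigma.fst (hσ.inj (Spl.ext huv ((hl u).1.trans (hl v).1.symm)))
  · rintro T ⟨v0, hv0⟩ hT v
    refine hσ.clo {p | p.1 ∈ T} ⟨lst v0, hv0⟩ (fun p hp => ?_) (lst v)
    rcases hall p with ⟨e1, -⟩ | ⟨e1, -, -⟩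
    · simp only [Set.mem_ofPred_eq] at hp ⊢
      rwa [← e1]
    · have e2 : p = lst p.1 := Spl.ext rfl e1
      have := hT _ hp
      simp only [Set.mem_ofPred_eq] at this ⊢
      rwa [← e2] at this

lemma dham_of_split [Finite V] [Nonempty V]
    (h : DHam (fun p q : Spl len => St Arc p q ∨ St Arc q p)) : DHam Arc := by
  obtain ⟨σ, hσ⟩ := h
  have : Finite (Spl len) := inferInstance
  obtain ⟨v⟩ := ‹Nonempty V›
  let x : Spl len := ⟨v, ⟨0, by omega⟩⟩
  rcases hσ.arc x with h | h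
  · exact forward hσ x h
  · obtain ⟨τ, h1, h2⟩ := hσ.rev
    exact forward ⟨h2.inj, fun p => (h2.arc p).symm, h2.clo⟩ (σ x) (by rwa [h1])

end split

end Pool.Agent.MP_6b3410_lc.H5
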