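import Mathlib

/-!
Random subsets and the spread lemma (minimal fragment proof).
-/

open Finset

namespace Pool.Agent.MP_6b3410_lc.H5

open Classical

variable {X : Type*} [Fintype X] [DecidableEq X]

/-- weight of `V` under the product measure with density `p` -/
noncomputable def mu (p : ℝ) (V : Finset X) : ℝ :=
  p ^ V.card * (1 - p) ^ (Fintype.card X - V.card)

omit [DecidableEq X] in
lemma mu_nonneg {p : ℝ} (h0 : 0 ≤ p) (h1 : p ≤ 1) (V : Finset X) : 0 ≤ mu p V :=
  mul_nonneg (pow_nonneg h0 _) (pow_nonneg (by linarith) _)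

lemma mu_eq_prod (p : ℝ) (V : Finset X) :
    mu p V = (∏ _x ∈ V, p) * ∏ _x ∈ Vᶜ, (1 - p) := by
  simp [mu, Finset.card_compl]

lemma sum_mu_pow (p ρ : ℝ) (A : Finset X) :
    ∑ V : Finset X, mu p V * ρ ^ (A \ V).card = (p + (1 - p) * ρ) ^ A.card := by
  have h := Fintype.prod_add (fun _ : X => p) (fun x => (1 - p) * (if x ∈ A then ρ else 1))
  have h1 : ∏ x : X, (p + (1 - p) * (if x ∈ A then ρ else 1)) = (p + (1 - p) * ρ) ^ A.card := by
    have : ∀ x : X, (p + (1 - p) * (if x ∈ A then ρ else 1)) =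
        if x ∈ A then (p + (1 - p) * ρ) else 1 := by
      intro x; split_ifs <;> ring
    simp only [this]
    rw [Finset.prod_ite_mem, Finset.univ_inter, Finset.prod_const]
  rw [← h1, h]
  refine Finset.sum_congr rfl (fun V _ => ?_)
  rw [mu_eq_prod, Finset.prod_mul_distrib, Finset.prod_ite_mem, mul_assoc, Finset.prod_const ρ]
  have : Vᶜ ∩ A = A \ V := by ext x; simp [and_comm]
  rw [this]

lemma sum_mu (p : ℝ) : ∑ V : Finset X, mu p V = 1 := by
  simpa using sum_mu_pow (X := X) p 1 ∅

lemma mu_union_ge {p : ℝ} (h0 : 0 ≤ p) (h1 : p ≤ 1) {V T : Finset X} (h : Disjoint V T) :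
    p ^ T.card * mu p V ≤ mu p (V ∪ T) := by
  rw [mu, mu, Finset.card_union_of_disjoint h, pow_add]
  have : (1 - p) ^ (Fintype.card X - V.card) ≤ (1 - p) ^ (Fintype.card X - (V.card + T.card)) :=
    pow_le_pow_of_le_one (by linarith) (by linarith) (by omega)
  calc p ^ T.card * (p ^ V.card * (1 - p) ^ (Fintype.card X - V.card))
      = (p ^ V.card * p ^ T.card) * (1 - p) ^ (Fintype.card X - V.card) := by ring
    _ ≤ _ := mul_le_mul_of_nonneg_left this (by positivity)

/-- weight of the union of `m` independent random sets of density `p` -/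
noncomputable def nu (p : ℝ) : ℕ → Finset X → ℝ
  | 0, Z => if Z = ∅ then 1 else 0
  | m + 1, Z => ∑ V : Finset X, ∑ W : Finset X, if V ∪ W = Z then mu p V * nu p m W else 0

lemma nu_nonneg {p : ℝ} (h0 : 0 ≤ p) (h1 : p ≤ 1) (m : ℕ) (Z : Finset X) : 0 ≤ nu p m Z := by
  induction m generalizing Z with
  | zero => simp only [nu]; split_ifs <;> norm_num
  | succ m ih =>
    simp only [nu]
    refine Finset.sum_nonneg fun V _ => Finset.sum_nonneg fun W _ => ?_
    split_ifs
    · exact mul_nonneg (mu_nonneg h0 h1 V) (ih W)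
    · exact le_rfl

/-- probability of an event under a weight function -/
noncomputable def pr (ν : Finset X → ℝ) (E : Finset X → Prop) : ℝ :=
  ∑ W : Finset X, if E W then ν W else 0

lemma pr_zero (p : ℝ) (E : Finset X → Prop) : pr (nu p 0) E = if E ∅ then 1 else 0 := by
  rw [pr, Finset.sum_eq_single ∅]
  · simp [nu]
  · intro W _ hW; simp [nu, hW]
  · simp

lemma pr_succ (p : ℝ) (m : ℕ) (E : Finset X → Prop) :
    pr (nu p (m + 1)) E = ∑ V : Finset X, mu p V * pr (nu p m) (fun W => E (V ∪ W)) := by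
  simp only [pr, nu, Finset.mul_sum]
  have : ∀ Z : Finset X, (if E Z then ∑ V : Finset X, ∑ W : Finset X,
      (if V ∪ W = Z then mu p V * nu p m W else 0) else 0) =
      ∑ V : Finset X, ∑ W : Finset X,
        if V ∪ W = Z then (if E Z then mu p V * nu p m W else 0) else 0 := by
    intro Z
    split_ifs <;> simp
  simp only [this]
  rw [Finset.sum_comm]
  refine Finset.sum_congr rfl fun V _ => ?_
  rw [Finset.sum_comm]
  refine Finset.sum_congr rfl fun W _ => ?_
  rw [Finset.sum_ite_eq]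
  simp

omit [DecidableEq X] in
lemma pr_nonneg {ν : Finset X → ℝ} (hν : ∀ W, 0 ≤ ν W) (E : Finset X → Prop) : 0 ≤ pr ν E :=
  Finset.sum_nonneg fun W _ => by split_ifs; exacts [hν W, le_rfl]

omit [DecidableEq X] in
lemma pr_mono {ν : Finset X → ℝ} (hν : ∀ W, 0 ≤ ν W) {E F : Finset X → Prop}
    (h : ∀ W, E W → F W) : pr ν E ≤ pr ν F := by
  refine Finset.sum_le_sum fun W _ => ?_
  by_cases hE : E W
  · simp [hE, h W hE]
  · simp only [hE, if_false]; split_ifs; exacts [hν W, le_rfl]

omit [DecidableEq X] in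
lemma pr_false (ν : Finset X → ℝ) {E : Finset X → Prop} (h : ∀ W, ¬ E W) : pr ν E = 0 := by
  simp [pr, h]

omit [DecidableEq X] in
lemma pr_or_le {ν : Finset X → ℝ} (hν : ∀ W, 0 ≤ ν W) (E F : Finset X → Prop) :
    pr ν (fun W => E W ∨ F W) ≤ pr ν E + pr ν F := by
  rw [pr, pr, pr, ← Finset.sum_add_distrib]
  refine Finset.sum_le_sum fun W _ => ?_
  have := hν W
  by_cases hE : E W <;> by_cases hF : F W <;> simp [hE, hF, this]

omit [DecidableEq X] in
lemma pr_exists_le {ν : Finset X → ℝ} (hν : ∀ W, 0 ≤ ν W) {ι : Type*} (t : Finset ι)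
    (E : ι → Finset X → Prop) : pr ν (fun W => ∃ i ∈ t, E i W) ≤ ∑ i ∈ t, pr ν (E i) := by
  induction t using Finset.induction_on with
  | empty => rw [pr_false] <;> simp
  | insert a t ha ih =>
    rw [Finset.sum_insert ha]
    refine le_trans (pr_mono hν (F := fun W => E a W ∨ ∃ i ∈ t, E i W) ?_)
      ((pr_or_le hν _ _).trans (by linarith))
    intro W ⟨i, hi, h⟩
    rcases Finset.mem_insert.1 hi with rfl | hi
    exacts [Or.inl h, Or.inr ⟨i, hi, h⟩]

lemma pr_true (p : ℝ) (m : ℕ) : pr (nu (X := X) p m) (fun _ => True) = 1 := by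
  induction m with
  | zero => simp [pr_zero]
  | succ m ih => rw [pr_succ]; simp only [ih, mul_one]; exact sum_mu p

lemma pr_subset_le {p : ℝ} (h0 : 0 ≤ p) (h1 : p ≤ 1) (m : ℕ) (A : Finset X) :
    pr (nu p m) (fun W => A ⊆ W) ≤ (m * p) ^ A.card := by
  induction m generalizing A with
  | zero =>
    rw [pr_zero]
    split_ifs with h
    · rw [Finset.subset_empty.1 h]; simp
    · positivity
  | succ m ih =>
    rw [pr_succ]
    calc _ ≤ ∑ V : Finset X, mu p V * (m * p) ^ (A \ V).card := by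
          refine Finset.sum_le_sum fun V _ => mul_le_mul_of_nonneg_left ?_ (mu_nonneg h0 h1 V)
          refine le_trans (pr_mono (nu_nonneg h0 h1 m) fun W hW => ?_) (ih (A \ V))
          intro x hx
          rcases Finset.mem_union.1 (hW (Finset.mem_sdiff.1 hx).1) with h | h
          · exact absurd h (Finset.mem_sdiff.1 hx).2
          · exact h
      _ = (p + (1 - p) * (m * p)) ^ A.card := sum_mu_pow _ _ _
      _ ≤ _ := by
          have hm : 0 ≤ (m : ℝ) * p := by positivity
          refine pow_le_pow_left₀ (by nlinarith) ?_ _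
          push_cast
          nlinarith

section round

variable {I : Type*} (S : Finset I) (a : I → Finset X)

/-- `T` is a minimal fragment with respect to `V` among the sets of size at most `s` -/
def Frag (s : ℕ) (V T : Finset X) : Prop :=
  Disjoint V T ∧ (∃ j ∈ S, (a j).card ≤ s ∧ a j ⊆ V ∪ T) ∧
    ∀ j ∈ S, (a j).card ≤ s → a j ⊆ V ∪ T → T ⊆ a j

omit [Fintype X] in
lemma exists_frag (V : Finset X) {i : I} (hi : i ∈ S) :
    ∃ T, T ⊆ a i ∧ Frag S a (a i).card V T := by
  let C := S.filter (fun j => (a j).card ≤ (a i).card ∧ a j ⊆ V ∪ a i)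
  have hC : C.Nonempty := ⟨i, by simp [C, hi]⟩
  obtain ⟨j, hj, hmin⟩ := C.exists_min_image (fun j => (a j \ V).card) hC
  obtain ⟨hjS, hjc, hjs⟩ : j ∈ S ∧ (a j).card ≤ (a i).card ∧ a j ⊆ V ∪ a i := by
    simpa [C] using hj
  have hT : a j \ V ⊆ a i := by
    intro x hx
    rcases Finset.mem_union.1 (hjs (Finset.mem_sdiff.1 hx).1) with h | h
    · exact absurd h (Finset.mem_sdiff.1 hx).2
    · exact h
  refine ⟨a j \ V, hT, Finset.disjoint_sdiff, ⟨j, hjS, hjc, by
    intro x hx; by_cases h : x ∈ V <;> simp [h, hx]⟩, fun j' hj' hc hs => ?_⟩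
  have h1 : a j' \ V ⊆ a j \ V := by
    intro x hx
    rcases Finset.mem_union.1 (hs (Finset.mem_sdiff.1 hx).1) with h | h
    · exact absurd h (Finset.mem_sdiff.1 hx).2
    · exact h
  have h2 : j' ∈ C := by
    simp only [C, Finset.mem_filter]
    exact ⟨hj', hc, hs.trans (Finset.union_subset_union_right hT)⟩
  have h3 := Finset.eq_of_subset_of_card_le h1 (hmin j' h2)
  rw [← h3]
  exact Finset.sdiff_subset

lemma frag_count {p r : ℝ} (h0 : 0 < p) (h1 : p ≤ 1) (hr : 1024 ≤ p * r) (s : ℕ) :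
    ∑ V : Finset X, mu p V *
      ∑ T : Finset X, (if Frag S a s V T ∧ s < 2 * T.card then (r ^ T.card)⁻¹ else 0) ≤
      (1 / 16) ^ s := by
  have hr0 : 0 < r := by
    by_contra h
    have : p * r ≤ 0 := mul_nonpos_of_nonneg_of_nonpos h0.le (not_lt.1 h)
    linarith
  -- canonical covering set
  let Q : Finset X → Finset X := fun Z =>
    if h : ∃ j ∈ S, (a j).card ≤ s ∧ a j ⊆ Z then a h.choose else ∅
  have hQc : ∀ Z, (Q Z).card ≤ s := by
    intro Z
    simp only [Q]
    split_ifs with h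
    · exact h.choose_spec.2.1
    · simp
  have hQ : ∀ V T, Frag S a s V T → T ⊆ Q (V ∪ T) := by
    intro V T hF
    simp only [Q]
    rw [dif_pos hF.2.1]
    exact hF.2.2 _ hF.2.1.choose_spec.1 hF.2.1.choose_spec.2.1 hF.2.1.choose_spec.2.2
  have step1 : ∀ V T : Finset X,
      mu p V * (if Frag S a s V T ∧ s < 2 * T.card then (r ^ T.card)⁻¹ else 0) ≤
      if Disjoint V T ∧ T ⊆ Q (V ∪ T) then mu p (V ∪ T) * (1 / 32) ^ s else 0 := by
    intro V T
    split_ifs with h h'
    · have h2 := mu_union_ge h0.le h1 h.1.1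
      have h3 : (32 : ℝ) ^ s ≤ (p * r) ^ T.card := by
        calc (32 : ℝ) ^ s ≤ 32 ^ (2 * T.card) := pow_le_pow_right₀ (by norm_num) h.2.le
          _ = 1024 ^ T.card := by rw [pow_mul]; norm_num
          _ ≤ _ := pow_le_pow_left₀ (by norm_num) hr _
      have h4 : (0 : ℝ) < r ^ T.card := by positivity
      have h5 : (0 : ℝ) < 32 ^ s := by positivity
      have h6 := mu_nonneg h0.le h1 V
      rw [one_div, inv_pow, ← div_eq_mul_inv, ← div_eq_mul_inv, div_le_div_iff₀ h4 h5]
      calc mu p V * 32 ^ s ≤ mu p V * (p * r) ^ T.card := mul_le_mul_of_nonneg_left h3 h6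
        _ = (p ^ T.card * mu p V) * r ^ T.card := by rw [mul_pow]; ring
        _ ≤ _ := mul_le_mul_of_nonneg_right h2 h4.le
    · exact absurd ⟨h.1.1, hQ V T h.1⟩ h'
    · rw [mul_zero]; exact mul_nonneg (mu_nonneg h0.le h1 _) (by positivity)
    · simp
  calc _ = ∑ V : Finset X, ∑ T : Finset X, mu p V *
        (if Frag S a s V T ∧ s < 2 * T.card then (r ^ T.card)⁻¹ else 0) := by
        simp only [Finset.mul_sum]
    _ ≤ ∑ V : Finset X, ∑ T : Finset X,
        if Disjoint V T ∧ T ⊆ Q (V ∪ T) then mu p (V ∪ T) * (1 / 32) ^ s else 0 :=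
        Finset.sum_le_sum fun V _ => Finset.sum_le_sum fun T _ => step1 V T
    _ ≤ ∑ Z : Finset X, ∑ T : Finset X,
        if T ⊆ Q Z then mu p Z * (1 / 32) ^ s else 0 := by
        rw [Finset.sum_comm, Finset.sum_comm (s := Finset.univ) (t := Finset.univ)
          (f := fun Z T => if T ⊆ Q Z then mu p Z * (1 / 32 : ℝ) ^ s else 0)]
        refine Finset.sum_le_sum fun T _ => ?_
        rw [← Finset.sum_filter, ← Finset.sum_filter]
        rw [← Finset.sum_image (s := Finset.univ.filter fun V => Disjoint V T ∧ T ⊆ Q (V ∪ T))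
          (g := fun V => V ∪ T) (f := fun Z => mu p Z * (1 / 32 : ℝ) ^ s)]
        · refine Finset.sum_le_sum_of_subset_of_nonneg ?_
            (fun Z _ _ => mul_nonneg (mu_nonneg h0.le h1 _) (by positivity))
          intro Z hZ
          obtain ⟨V, hV, rfl⟩ := Finset.mem_image.1 hZ
          simp only [Finset.mem_filter, Finset.mem_univ, true_and] at hV ⊢
          exact hV.2
        · intro V hV V' hV' h
          simp only [Finset.coe_filter, Finset.mem_univ, true_and, Set.mem_ofPred_eq] at hV hV'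
          have e1 : V = (V ∪ T) \ T := by rw [Finset.union_sdiff_cancel_right hV.1]
          have e2 : V' = (V' ∪ T) \ T := by rw [Finset.union_sdiff_cancel_right hV'.1]
          rw [e1, e2]
          exact congrArg (· \ T) h
    _ ≤ ∑ Z : Finset X, mu p Z * (1 / 16) ^ s := by
        refine Finset.sum_le_sum fun Z _ => ?_
        rw [← Finset.sum_filter, Finset.sum_const, nsmul_eq_mul]
        have h2 : (Finset.univ.filter fun T => T ⊆ Q Z) = (Q Z).powerset := by
          ext T; simp
        rw [h2, Finset.card_powerset]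
        have h3 : ((2 ^ (Q Z).card : ℕ) : ℝ) ≤ 2 ^ s := by
          push_cast
          exact pow_le_pow_right₀ (by norm_num) (hQc Z)
        have h4 : (1 / 16 : ℝ) ^ s = 2 ^ s * (1 / 32) ^ s := by rw [← mul_pow]; norm_num
        have h6 := mu_nonneg h0.le h1 Z
        rw [h4]
        calc _ ≤ 2 ^ s * (mu p Z * (1 / 32) ^ s) :=
              mul_le_mul_of_nonneg_right h3 (by positivity)
          _ = _ := by ring
    _ = _ := by rw [← Finset.sum_mul, sum_mu, one_mul]

/-- the indexed family `a` on `S` is `r`-spread -/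
def Spread (r : ℝ) : Prop :=
  ∀ T : Finset X, ((S.filter fun i => T ⊆ a i).card : ℝ) * r ^ T.card ≤ S.card

lemma geo_bound (n : ℕ) : ∑ s ∈ Finset.range n, (s : ℝ) * (1 / 16) ^ s ≤ 1 / 7 := by
  have : ∀ n : ℕ, ∑ s ∈ Finset.range n, (s : ℝ) * (1 / 16) ^ s ≤ 1 / 7 - n * (1 / 16) ^ n * 2 := by
    intro n
    induction n with
    | zero => simp
    | succ n ih =>
      rw [Finset.sum_range_succ, pow_succ]
      push_cast
      rcases Nat.eq_zero_or_pos n with rfl | hn
      · norm_num
      · have h1 : (1 : ℝ) ≤ n := by exact_mod_cast hn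
        have h2 : (0 : ℝ) < (1 / 16) ^ n := by positivity
        nlinarith
  have h := this n
  have h2 : (0 : ℝ) ≤ n * (1 / 16) ^ n * 2 := by positivity
  linarith

lemma one_round {p r : ℝ} (h0 : 0 < p) (h1 : p ≤ 1) (hr : 1024 ≤ p * r) (hsp : Spread S a r) :
    ∃ b : Finset X → I → Finset X,
      (∀ V, ∀ i ∈ S, b V i ⊆ a i ∧ ∃ j ∈ S, a j ⊆ V ∪ b V i) ∧
      ∑ V : Finset X, mu p V * ∑ i ∈ S, ((b V i).card : ℝ) ≤
        (∑ i ∈ S, ((a i).card : ℝ)) / 2 + S.card / 7 := by
  have hr0 : 0 < r := by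
    by_contra h
    have : p * r ≤ 0 := mul_nonpos_of_nonneg_of_nonpos h0.le (not_lt.1 h)
    linarith
  have hex : ∀ V i, ∃ T, i ∈ S → T ⊆ a i ∧ Frag S a (a i).card V T := by
    intro V i
    by_cases hi : i ∈ S
    · obtain ⟨T, hT⟩ := exists_frag S a V hi
      exact ⟨T, fun _ => hT⟩
    · exact ⟨∅, fun h => absurd h hi⟩
  choose b hb using hex
  refine ⟨b, fun V i hi => ⟨(hb V i hi).1, ?_⟩, ?_⟩
  · obtain ⟨j, hj, _, h⟩ := (hb V i hi).2.2.1
    exact ⟨j, hj, h⟩
  let N := Fintype.card X + 1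
  let g : ℕ → Finset X → ℝ := fun s V =>
    ∑ T : Finset X, (if Frag S a s V T ∧ s < 2 * T.card then (r ^ T.card)⁻¹ else 0)
  have key : ∀ V, ∑ i ∈ S, ((b V i).card : ℝ) ≤
      (∑ i ∈ S, ((a i).card : ℝ)) / 2 + S.card * ∑ s ∈ Finset.range N, s * g s V := by
    intro V
    have e1 : ∀ i ∈ S, ((b V i).card : ℝ) ≤ (a i).card / 2 + ∑ s ∈ Finset.range N, (s : ℝ) *
        ∑ T : Finset X, (if (Frag S a s V T ∧ s < 2 * T.card) ∧ T ⊆ a i then (1 : ℝ) else 0) := by
      intro i hi
      have hnn : ∀ s ∈ Finset.range N, 0 ≤ (s : ℝ) * ∑ T : Finset X,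
          (if (Frag S a s V T ∧ s < 2 * T.card) ∧ T ⊆ a i then (1 : ℝ) else 0) :=
        fun s _ => mul_nonneg (Nat.cast_nonneg _)
          (Finset.sum_nonneg fun T _ => by split_ifs <;> norm_num)
      by_cases hc : (a i).card < 2 * (b V i).card
      · have hs : (a i).card ∈ Finset.range N :=
          Finset.mem_range.2 (Nat.lt_succ_of_le (Finset.card_le_univ _))
        have h2 := Finset.single_le_sum hnn hs
        have h3 : (1 : ℝ) ≤ ∑ T : Finset X, (if (Frag S a (a i).card V T ∧
            (a i).card < 2 * T.card) ∧ T ⊆ a i then (1 : ℝ) else 0) := by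
          have := Finset.single_le_sum (f := fun T : Finset X => (if (Frag S a (a i).card V T ∧
            (a i).card < 2 * T.card) ∧ T ⊆ a i then (1 : ℝ) else 0))
            (fun T _ => by split_ifs <;> norm_num) (Finset.mem_univ (b V i))
          rwa [if_pos ⟨⟨(hb V i hi).2, hc⟩, (hb V i hi).1⟩] at this
        have h4 : ((b V i).card : ℝ) ≤ (a i).card := by
          exact_mod_cast Finset.card_le_card (hb V i hi).1
        have h5 : (0 : ℝ) ≤ (a i).card := Nat.cast_nonneg _
        nlinarith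
      · have h2 : (2 * (b V i).card : ℝ) ≤ (a i).card := by exact_mod_cast not_lt.1 hc
        have := Finset.sum_nonneg hnn
        linarith
    refine (Finset.sum_le_sum e1).trans ?_
    rw [Finset.sum_add_distrib, ← Finset.sum_div, Finset.sum_comm, Finset.mul_sum]
    refine add_le_add le_rfl (Finset.sum_le_sum fun s _ => ?_)
    rw [← Finset.mul_sum, Finset.sum_comm, mul_left_comm]
    refine mul_le_mul_of_nonneg_left ?_ (Nat.cast_nonneg _)
    simp only [g]
    rw [Finset.mul_sum]
    refine Finset.sum_le_sum fun T _ => ?_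
    by_cases hT : Frag S a s V T ∧ s < 2 * T.card
    · simp only [hT, true_and, and_self, if_true]
      rw [Finset.sum_boole, ← div_eq_mul_inv, le_div_iff₀ (by positivity)]
      exact hsp T
    · simp [hT]
  calc _ ≤ ∑ V : Finset X, mu p V * ((∑ i ∈ S, ((a i).card : ℝ)) / 2 +
        S.card * ∑ s ∈ Finset.range N, s * g s V) :=
        Finset.sum_le_sum fun V _ => mul_le_mul_of_nonneg_left (key V) (mu_nonneg h0.le h1 V)
    _ = (∑ i ∈ S, ((a i).card : ℝ)) / 2 +
        S.card * ∑ s ∈ Finset.range N, s * ∑ V : Finset X, mu p V * g s V := by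
        simp only [mul_add, Finset.sum_add_distrib]
        rw [← Finset.sum_mul, sum_mu, one_mul]
        congr 1
        simp only [Finset.mul_sum]
        rw [Finset.sum_comm]
        refine Finset.sum_congr rfl fun s _ => Finset.sum_congr rfl fun V _ => by ring
    _ ≤ _ := by
        have h2 : ∑ s ∈ Finset.range N, (s : ℝ) * ∑ V : Finset X, mu p V * g s V ≤ 1 / 7 := by
          refine le_trans (Finset.sum_le_sum fun s _ => ?_) (geo_bound N)
          exact mul_le_mul_of_nonneg_left (frag_count S a h0 h1 hr s) (Nat.cast_nonneg _)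
        have h3 : (0 : ℝ) ≤ S.card := Nat.cast_nonneg _
        nlinarith

end round

theorem spread_lemma {p r : ℝ} (h0 : 0 < p) (h1 : p ≤ 1) (hr : 1024 ≤ p * r) (m : ℕ)
    {I : Type*} (S : Finset I) (a : I → Finset X) (hsp : Spread S a r) :
    pr (nu p m) (fun W => ¬ ∃ i ∈ S, a i ⊆ W) * S.card ≤
      (2 / 3) ^ m * ∑ i ∈ S, ((a i).card : ℝ) := by
  have hr0 : 0 < r := by
    by_contra h
    have : p * r ≤ 0 := mul_nonpos_of_nonneg_of_nonpos h0.le (not_lt.1 h)
    linarith
  induction m generalizing a with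
  | zero =>
    rw [pr_zero]
    split_ifs with h
    · rw [zero_mul]; positivity
    · rw [pow_zero, one_mul, one_mul, Finset.card_eq_sum_ones, Nat.cast_sum]
      refine Finset.sum_le_sum fun i hi => ?_
      have : a i ≠ ∅ := fun h' => h ⟨i, hi, by simp [h']⟩
      exact_mod_cast Finset.card_pos.2 (Finset.nonempty_iff_ne_empty.2 this)
  | succ m ih =>
    by_cases he : ∃ i ∈ S, a i = ∅
    · rw [pr_false]
      · rw [zero_mul]; positivity
      · obtain ⟨i, hi, h⟩ := he
        intro W hW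
        exact hW ⟨i, hi, by simp [h]⟩
    · have hcard : (S.card : ℝ) ≤ ∑ i ∈ S, ((a i).card : ℝ) := by
        rw [Finset.card_eq_sum_ones, Nat.cast_sum]
        refine Finset.sum_le_sum fun i hi => ?_
        have : a i ≠ ∅ := fun h' => he ⟨i, hi, h'⟩
        exact_mod_cast Finset.card_pos.2 (Finset.nonempty_iff_ne_empty.2 this)
      obtain ⟨b, hb, hsum⟩ := one_round S a h0 h1 hr hsp
      rw [pr_succ, Finset.sum_mul]
      calc _ ≤ ∑ V : Finset X, mu p V * ((2 / 3) ^ m * ∑ i ∈ S, ((b V i).card : ℝ)) := by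
            refine Finset.sum_le_sum fun V _ => ?_
            rw [mul_assoc]
            refine mul_le_mul_of_nonneg_left ?_ (mu_nonneg h0.le h1 V)
            refine le_trans ?_ (ih (b V) fun T => le_trans ?_ (hsp T))
            · refine mul_le_mul_of_nonneg_right (pr_mono (nu_nonneg h0.le h1 m) ?_)
                (Nat.cast_nonneg _)
              rintro W hW ⟨i, hi, h⟩
              obtain ⟨j, hj, h'⟩ := (hb V i hi).2
              exact hW ⟨j, hj, h'.trans (Finset.union_subset_union_right h)⟩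
            · refine mul_le_mul_of_nonneg_right ?_ (by positivity)
              refine Nat.cast_le.2 (Finset.card_le_card fun i hi => ?_)
              rw [Finset.mem_filter] at hi ⊢
              exact ⟨hi.1, hi.2.trans (hb V i hi.1).1⟩
        _ = (2 / 3) ^ m * ∑ V : Finset X, mu p V * ∑ i ∈ S, ((b V i).card : ℝ) := by
            rw [Finset.mul_sum]
            refine Finset.sum_congr rfl fun V _ => by ring
        _ ≤ (2 / 3) ^ m * ((2 / 3) * ∑ i ∈ S, ((a i).card : ℝ)) := by
            refine mul_le_mul_of_nonneg_left ?_ (by positivity)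
            have : (0 : ℝ) ≤ S.card := Nat.cast_nonneg _
            linarith
        _ = _ := by ring

/-- robust sunflower lemma -/
theorem robust_sunflower {p r : ℝ} (h0 : 0 < p) (h1 : p ≤ 1) (hr : 1024 ≤ p * r) (m j : ℕ)
    (G : Finset (Finset X)) (hG : ∀ A ∈ G, A.card = j) (hbig : r ^ j < G.card) :
    ∃ B : Finset X, B.card < j ∧ (∃ A ∈ G, B ⊆ A) ∧
      pr (nu p m) (fun W => ¬ ∃ A ∈ G, A ⊆ W ∪ B) ≤ j * (2 / 3) ^ m := by
  have hr1 : 1 ≤ r := by nlinarith
  obtain ⟨B, -, hB⟩ := Finset.exists_max_image (Finset.univ : Finset (Finset X))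
    (fun B => ((G.filter fun A => B ⊆ A).card : ℝ) * r ^ B.card) ⟨∅, Finset.mem_univ _⟩
  have hB0 : (G.card : ℝ) ≤ ((G.filter fun A => B ⊆ A).card : ℝ) * r ^ B.card := by
    simpa using hB ∅ (Finset.mem_univ _)
  have hpos : (0 : ℝ) < r ^ j := by positivity
  have hne : (G.filter fun A => B ⊆ A).Nonempty := by
    rw [← Finset.card_pos]
    by_contra h
    have : (G.filter fun A => B ⊆ A).card = 0 := by omega
    rw [this] at hB0
    simp only [Nat.cast_zero, zero_mul] at hB0
    linarith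
  obtain ⟨A0, hA0⟩ := hne
  have hA0' := Finset.mem_filter.1 hA0
  have hBj : B.card < j := by
    have h2 : B.card ≤ j := hG A0 hA0'.1 ▸ Finset.card_le_card hA0'.2
    refine lt_of_le_of_ne h2 fun h3 => ?_
    have h4 : (G.filter fun A => B ⊆ A).card ≤ 1 := by
      refine Finset.card_le_one.2 fun A hA A' hA' => ?_
      rw [Finset.mem_filter] at hA hA'
      rw [← Finset.eq_of_subset_of_card_le hA.2 (by rw [hG A hA.1, h3]),
        ← Finset.eq_of_subset_of_card_le hA'.2 (by rw [hG A' hA'.1, h3])]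
    have h5 : ((G.filter fun A => B ⊆ A).card : ℝ) ≤ 1 := by exact_mod_cast h4
    rw [h3] at hB0
    nlinarith
  refine ⟨B, hBj, ⟨A0, hA0'.1, hA0'.2⟩, ?_⟩
  set S := G.filter fun A => B ⊆ A with hS
  have hsp : Spread S (fun A => A \ B) r := by
    intro T
    by_cases hT : Disjoint B T
    · have h2 := hB (B ∪ T) (Finset.mem_univ _)
      rw [Finset.card_union_of_disjoint hT, pow_add] at h2
      have h3 : (S.filter fun A => T ⊆ A \ B).card ≤ (G.filter fun A => B ∪ T ⊆ A).card := by
        refine Finset.card_le_card fun A hA => ?_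
        simp only [hS, Finset.mem_filter] at hA ⊢
        exact ⟨hA.1.1, Finset.union_subset hA.1.2 (hA.2.trans Finset.sdiff_subset)⟩
      have h4 : ((S.filter fun A => T ⊆ A \ B).card : ℝ) ≤
          (G.filter fun A => B ∪ T ⊆ A).card := by exact_mod_cast h3
      have h5 : (0 : ℝ) < r ^ B.card := by positivity
      have h6 : (0 : ℝ) < r ^ T.card := by positivity
      refine le_of_mul_le_mul_right ?_ h5
      calc _ = ((S.filter fun A => T ⊆ A \ B).card : ℝ) * (r ^ B.card * r ^ T.card) := by ring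
        _ ≤ ((G.filter fun A => B ∪ T ⊆ A).card : ℝ) * (r ^ B.card * r ^ T.card) :=
            mul_le_mul_of_nonneg_right h4 (by positivity)
        _ ≤ _ := h2
    · have : (S.filter fun A => T ⊆ A \ B) = ∅ := by
        refine Finset.filter_eq_empty_iff.2 fun A _ h => hT ?_
        exact Finset.disjoint_of_subset_right h Finset.disjoint_sdiff
      rw [this]; simp
  have h2 := spread_lemma h0 h1 hr m S (fun A => A \ B) hsp
  have h3 : ∑ A ∈ S, (((A \ B).card : ℕ) : ℝ) ≤ S.card * j := by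
    rw [← nsmul_eq_mul, ← Finset.sum_const]
    refine Finset.sum_le_sum fun A hA => ?_
    have := hG A (Finset.mem_filter.1 hA).1
    exact_mod_cast this ▸ Finset.card_le_card Finset.sdiff_subset
  have h4 : (0 : ℝ) < S.card := by exact_mod_cast Finset.card_pos.2 ⟨A0, hA0⟩
  have h5 : pr (nu p m) (fun W => ¬ ∃ A ∈ G, A ⊆ W ∪ B) ≤
      pr (nu p m) (fun W => ¬ ∃ A ∈ S, A \ B ⊆ W) := by
    refine pr_mono (nu_nonneg h0.le h1 m) ?_
    rintro W hW ⟨A, hA, h⟩
    refine hW ⟨A, (Finset.mem_filter.1 hA).1, fun x hx => ?_⟩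
    by_cases hxB : x ∈ B
    · exact Finset.mem_union_right _ hxB
    · exact Finset.mem_union_left _ (h (Finset.mem_sdiff.2 ⟨hx, hxB⟩))
  refine h5.trans (le_of_mul_le_mul_right ?_ h4)
  calc _ ≤ _ := h2
    _ ≤ (2 / 3) ^ m * (S.card * j) := mul_le_mul_of_nonneg_left h3 (by positivity)
    _ = _ := by ring

end Pool.Agent.MP_6b3410_lc.H5
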