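import Mathlib
import Pool.Agent.MP_6b3410_lc.H5.Spread

/-!
The approximation method (closure and trimming) for monotone circuits.
-/

open Finset

namespace Pool.Agent.MP_6b3410_lc.H5

open Classical

variable {X : Type*} [Fintype X] [DecidableEq X]

def Mono (f : Finset X → Prop) : Prop := ∀ A B, A ⊆ B → f A → f B

def Loc (w : ℕ) (f : Finset X → Prop) : Prop := ∀ W, f W → ∃ A, A ⊆ W ∧ A.card ≤ w ∧ f A

def Closed (ν : Finset X → ℝ) (ε : ℝ) (c : ℕ) (h : Finset X → Prop) : Prop :=
  ∀ A : Finset X, A.card ≤ c → pr ν (fun W => ¬ h (W ∪ A)) ≤ ε → h A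

lemma exists_closure {ν : Finset X → ℝ} (hν : ∀ W, 0 ≤ ν W) {ε : ℝ} (hε : 0 ≤ ε) (c : ℕ)
    (n : ℕ) : ∀ f : Finset X → Prop, Mono f →
      (Finset.univ.filter fun A : Finset X => A.card ≤ c ∧ ¬ f A).card ≤ n →
      ∃ h, Mono h ∧ (∀ W, f W → h W) ∧ Closed ν ε c h ∧
        pr ν (fun W => h W ∧ ¬ f W) ≤ ε * n := by
  induction n with
  | zero =>
    intro f hf hn
    refine ⟨f, hf, fun _ h => h, fun A hA _ => ?_, by rw [pr_false] <;> simp⟩
    by_contra h
    have : A ∈ Finset.univ.filter fun A : Finset X => A.card ≤ c ∧ ¬ f A := by simp [hA, h]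
    have := Finset.card_pos.2 ⟨A, this⟩
    omega
  | succ n ih =>
    intro f hf hn
    by_cases hc : Closed ν ε c f
    · exact ⟨f, hf, fun _ h => h, hc, by rw [pr_false]; positivity; simp⟩
    · simp only [Closed, not_forall] at hc
      obtain ⟨A, hA, hpr, hfA⟩ := hc
      have hmono : Mono (fun W => f W ∨ A ⊆ W) := by
        rintro B C hBC (h | h)
        exacts [Or.inl (hf _ _ hBC h), Or.inr (h.trans hBC)]
      have hlt : (Finset.univ.filter fun B : Finset X => B.card ≤ c ∧ ¬ (f B ∨ A ⊆ B)).card <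
          (Finset.univ.filter fun A : Finset X => A.card ≤ c ∧ ¬ f A).card := by
        refine Finset.card_lt_card ⟨fun B hB => ?_, fun h => ?_⟩
        · simp only [Finset.mem_filter, Finset.mem_univ, true_and, not_or] at hB ⊢
          exact ⟨hB.1, hB.2.1⟩
        · have : A ∈ Finset.univ.filter fun A : Finset X => A.card ≤ c ∧ ¬ f A := by
            simp [hA, hfA]
          simpa using h this
      obtain ⟨h, h1, h2, h3, h4⟩ := ih _ hmono (by convert Nat.lt_succ_iff.1 (hlt.trans_le hn))
      refine ⟨h, h1, fun W hW => h2 W (Or.inl hW), h3, ?_⟩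
      calc _ ≤ pr ν (fun W => (h W ∧ ¬ (f W ∨ A ⊆ W)) ∨ ¬ f (W ∪ A)) := by
            refine pr_mono hν fun W hW => ?_
            by_cases hAW : A ⊆ W
            · right; rw [Finset.union_eq_left.2 hAW]; exact hW.2
            · left; exact ⟨hW.1, fun h' => h'.elim hW.2 hAW⟩
        _ ≤ _ := pr_or_le hν _ _
        _ ≤ ε * n + ε := add_le_add h4 hpr
        _ = _ := by push_cast; ring

/-- minimal accepted sets of size `j` -/
noncomputable def mint (h : Finset X → Prop) (j : ℕ) : Finset (Finset X) :=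
  Finset.univ.filter fun A => A.card = j ∧ h A ∧ ∀ B, B ⊂ A → ¬ h B

lemma exists_mint {h : Finset X → Prop} {A : Finset X} (hA : h A) :
    ∃ B, B ⊆ A ∧ B ∈ mint h B.card := by
  obtain ⟨B, hB, hmin⟩ := Finset.exists_min_image (A.powerset.filter h) Finset.card
    ⟨A, by simp [hA]⟩
  simp only [Finset.mem_filter, Finset.mem_powerset] at hB hmin
  refine ⟨B, hB.1, ?_⟩
  simp only [mint, Finset.mem_filter, Finset.mem_univ, true_and]
  refine ⟨hB.2, fun C hC hhC => ?_⟩
  have h1 := hmin C ⟨hC.subset.trans hB.1, hhC⟩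
  have h2 := Finset.card_lt_card hC
  omega

/-- the robust sunflower property -/
def SF (ν : Finset X → ℝ) (ε r : ℝ) (c : ℕ) : Prop :=
  ∀ j ≤ c, ∀ G : Finset (Finset X), (∀ A ∈ G, A.card = j) → r ^ j < G.card →
    ∃ B : Finset X, B.card < j ∧ (∃ A ∈ G, B ⊆ A) ∧
      pr ν (fun W => ¬ ∃ A ∈ G, A ⊆ W ∪ B) ≤ ε

lemma card_mint_le {ν : Finset X → ℝ} (hν : ∀ W, 0 ≤ ν W) {ε r : ℝ} {c : ℕ} (hSF : SF ν ε r c)
    {h : Finset X → Prop} (hm : Mono h) (hc : Closed ν ε c h) {j : ℕ} (hj : j ≤ c) :
    ((mint h j).card : ℝ) ≤ r ^ j := by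
  by_contra hcon
  obtain ⟨B, hB, ⟨A, hA, hBA⟩, hpr⟩ := hSF j hj (mint h j)
    (fun A hA => (Finset.mem_filter.1 hA).2.1) (not_le.1 hcon)
  have hA' := (Finset.mem_filter.1 hA).2
  refine hA'.2.2 B ⟨hBA, fun h' => ?_⟩ (hc B (by omega) (le_trans (pr_mono hν ?_) hpr))
  · have := Finset.card_le_card h'
    omega
  · rintro W hW ⟨C, hC, hCW⟩
    exact hW (hm _ _ hCW (Finset.mem_filter.1 hC).2.2.1)

variable {Q : Type*}

/-- the positive inputs are spread up to size `c` -/
def PS (P : Finset Q) (y : Q → Finset X) (r : ℝ) (c : ℕ) : Prop :=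
  ∀ A : Finset X, A.card ≤ c → ((P.filter fun π => A ⊆ y π).card : ℝ) * (4 * r) ^ A.card ≤ P.card

lemma pos_count {ν : Finset X → ℝ} (hν : ∀ W, 0 ≤ ν W) {ε r : ℝ} (hr : 0 < r) {c : ℕ}
    (hSF : SF ν ε r c) {P : Finset Q} {y : Q → Finset X} (hP : PS P y r c)
    {h : Finset X → Prop} (hm : Mono h) (hc : Closed ν ε c h) (a : ℕ) :
    ((P.filter fun π => ∃ B, B ⊆ y π ∧ B ∈ mint h B.card ∧ a + 1 ≤ B.card ∧ B.card ≤ c).card : ℝ)
      ≤ P.card * ((1 / 4) ^ a / 3) := by
  have h1 : (P.filter fun π => ∃ B, B ⊆ y π ∧ B ∈ mint h B.card ∧ a + 1 ≤ B.card ∧ B.card ≤ c) ⊆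
      (Finset.Ico (a + 1) (c + 1)).biUnion fun j =>
        (mint h j).biUnion fun B => P.filter fun π => B ⊆ y π := by
    intro π hπ
    obtain ⟨hπP, B, h1, h2, h3, h4⟩ := Finset.mem_filter.1 hπ
    simp only [Finset.mem_biUnion, Finset.mem_Ico, Finset.mem_filter]
    exact ⟨B.card, ⟨h3, by omega⟩, B, h2, hπP, h1⟩
  have h2 : ∀ j ∈ Finset.Ico (a + 1) (c + 1),
      (((mint h j).biUnion fun B => P.filter fun π => B ⊆ y π).card : ℝ) ≤
        P.card * (1 / 4) ^ j := by
    intro j hj
    have hjc : j ≤ c := Nat.lt_succ_iff.1 (Finset.mem_Ico.1 hj).2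
    have h3 : ∀ B ∈ mint h j, ((P.filter fun π => B ⊆ y π).card : ℝ) ≤ P.card / (4 * r) ^ j := by
      intro B hB
      have hBj : B.card = j := (Finset.mem_filter.1 hB).2.1
      rw [le_div_iff₀ (by positivity), ← hBj]
      exact hP B (by omega)
    calc _ ≤ ((∑ B ∈ mint h j, (P.filter fun π => B ⊆ y π).card : ℕ) : ℝ) := by
          exact_mod_cast Finset.card_biUnion_le
      _ ≤ ∑ _B ∈ mint h j, (P.card : ℝ) / (4 * r) ^ j := by
          push_cast; exact Finset.sum_le_sum h3
      _ = (mint h j).card * ((P.card : ℝ) / (4 * r) ^ j) := by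
          rw [Finset.sum_const, nsmul_eq_mul]
      _ ≤ r ^ j * ((P.card : ℝ) / (4 * r) ^ j) :=
          mul_le_mul_of_nonneg_right (card_mint_le hν hSF hm hc hjc) (by positivity)
      _ = _ := by rw [mul_pow, one_div, inv_pow]; field_simp
  calc _ ≤ (((Finset.Ico (a + 1) (c + 1)).biUnion fun j =>
        (mint h j).biUnion fun B => P.filter fun π => B ⊆ y π).card : ℝ) := by
        exact_mod_cast Finset.card_le_card h1
    _ ≤ ((∑ j ∈ Finset.Ico (a + 1) (c + 1),
        ((mint h j).biUnion fun B => P.filter fun π => B ⊆ y π).card : ℕ) : ℝ) := by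
        exact_mod_cast Finset.card_biUnion_le
    _ ≤ ∑ j ∈ Finset.Ico (a + 1) (c + 1), (P.card : ℝ) * (1 / 4) ^ j := by
        push_cast; exact Finset.sum_le_sum h2
    _ ≤ _ := by
        rw [← Finset.mul_sum]
        refine mul_le_mul_of_nonneg_left ?_ (Nat.cast_nonneg _)
        refine (geom_sum_Ico_le_of_lt_one (by norm_num) (by norm_num)).trans (le_of_eq ?_)
        rw [pow_succ]; ring

omit [DecidableEq X] in
lemma card_small_le (c : ℕ) (hX : 1 ≤ Fintype.card X) (E : Finset X → Prop) :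
    (Finset.univ.filter fun A : Finset X => A.card ≤ c ∧ E A).card ≤
      (c + 1) * Fintype.card X ^ c := by
  have h1 : (Finset.univ.filter fun A : Finset X => A.card ≤ c ∧ E A) ⊆
      (Finset.range (c + 1)).biUnion fun j => Finset.univ.powersetCard j := by
    intro A hA
    simp only [Finset.mem_filter, Finset.mem_univ, true_and] at hA
    simp only [Finset.mem_biUnion, Finset.mem_range, Finset.mem_powersetCard]
    exact ⟨A.card, by omega, Finset.subset_univ _, rfl⟩
  refine (Finset.card_le_card h1).trans (Finset.card_biUnion_le.trans ?_)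
  calc _ ≤ ∑ _j ∈ Finset.range (c + 1), Fintype.card X ^ c := by
        refine Finset.sum_le_sum fun j hj => ?_
        rw [Finset.card_powersetCard, Finset.card_univ]
        exact (Nat.choose_le_pow _ _).trans
          (Nat.pow_le_pow_right hX (Nat.lt_succ_iff.1 (Finset.mem_range.1 hj)))
    _ = _ := by simp

lemma approx_step {ν : Finset X → ℝ} (hν : ∀ W, 0 ≤ ν W) {ε r : ℝ} (hε : 0 ≤ ε) (hr : 0 < r)
    {w : ℕ} (hX : 1 ≤ Fintype.card X) (hSF : SF ν ε r (2 * w)) {P : Finset Q} {y : Q → Finset X}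
    (hP : PS P y r (2 * w)) (f : Finset X → Prop) :
    ∃ g : Finset X → Prop, Mono g ∧ Loc w g ∧ (Mono f → Loc (2 * w) f →
      (g ∅ ∨ ((P.filter fun π => g (y π)).card : ℝ) ≤ P.card / 3) ∧
      pr ν (fun W => g W ∧ ¬ f W) ≤ ε * ((2 * w + 1) * Fintype.card X ^ (2 * w)) ∧
      ((P.filter fun π => f (y π) ∧ ¬ g (y π)).card : ℝ) ≤ P.card * ((1 / 4) ^ w / 3)) := by
  by_cases hf : Mono f
  swap
  · exact ⟨fun _ => False, fun _ _ _ h => h, fun _ h => h.elim, fun h => absurd h hf⟩
  obtain ⟨h, h1, h2, h3, h4⟩ := exists_closure hν hε (2 * w) _ f hf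
    (by convert card_small_le (2 * w) hX (fun A => ¬ f A))
  refine ⟨fun W => ∃ A, A ⊆ W ∧ A.card ≤ w ∧ h A, ?_, ?_, fun _ hl => ⟨?_, ?_, ?_⟩⟩
  · rintro A B hAB ⟨C, hC, hC'⟩
    exact ⟨C, hC.trans hAB, hC'⟩
  · rintro W ⟨A, hA, hA', hA''⟩
    exact ⟨A, hA, hA', A, Finset.Subset.refl _, hA', hA''⟩
  · by_cases he : h ∅
    · exact Or.inl ⟨∅, Finset.Subset.refl _, by simp, he⟩
    · right
      have h5 := pos_count hν hr hSF hP h1 h3 0
      rw [pow_zero, mul_one_div] at h5
      refine le_trans (Nat.cast_le.2 (Finset.card_le_card fun π hπ => ?_)) h5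
      simp only [Finset.mem_filter] at hπ ⊢
      obtain ⟨hπP, A, hA, hA', hA''⟩ := hπ
      obtain ⟨B, hB, hB'⟩ := exists_mint hA''
      refine ⟨hπP, B, hB.trans hA, hB', ?_, ?_⟩
      · have : B ≠ ∅ := fun hB0 => he (hB0 ▸ (Finset.mem_filter.1 hB').2.2.1)
        exact Finset.card_pos.2 (Finset.nonempty_iff_ne_empty.2 this)
      · have := Finset.card_le_card hB
        omega
  · refine le_trans (pr_mono hν ?_) (h4.trans (le_of_eq (by push_cast; ring)))
    rintro W ⟨⟨A, hA, _, hA'⟩, hW⟩
    exact ⟨h1 _ _ hA hA', hW⟩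
  · refine le_trans (Nat.cast_le.2 (Finset.card_le_card fun π hπ => ?_))
      (pos_count hν hr hSF hP h1 h3 w)
    simp only [Finset.mem_filter] at hπ ⊢
    obtain ⟨hπP, hfy, hg⟩ := hπ
    obtain ⟨A, hA, hA', hA''⟩ := hl _ hfy
    obtain ⟨B, hB, hB'⟩ := exists_mint (h2 _ hA'')
    refine ⟨hπP, B, hB.trans hA, hB', ?_, ?_⟩
    · by_contra hcon
      exact hg ⟨B, hB.trans hA, by omega, (Finset.mem_filter.1 hB').2.2.1⟩
    · have := Finset.card_le_card hB
      omega

lemma exists_fix {s : ℕ} {β : Type*} [Nonempty β] (F : (Fin s → β) → Fin s → β)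
    (hF : ∀ u v g, (∀ j, j < g → u j = v j) → F u g = F v g) : ∃ u, ∀ g, u g = F u g := by
  let u0 : Fin s → β := fun _ => Classical.arbitrary β
  have : ∀ n : ℕ, ∀ g : Fin s, g.val < n → F^[n] u0 g = F^[n + 1] u0 g := by
    intro n
    induction n with
    | zero => intro g h; omega
    | succ n ih =>
      intro g hg
      rw [Function.iterate_succ_apply' F (n + 1), Function.iterate_succ_apply' F n]
      refine hF _ _ _ fun j hj => ?_
      have := ih j (by have : j.val < g.val := hj; omega)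
      rwa [Function.iterate_succ_apply' F n] at this
  exact ⟨F^[s] u0, fun g => by rw [this s g g.2, Function.iterate_succ_apply']⟩

theorem approx_main {ν : Finset X → ℝ} (hν : ∀ W, 0 ≤ ν W) (hν1 : pr ν (fun _ => True) = 1)
    {ε r : ℝ} (hε : 0 ≤ ε) (hr : 0 < r) {w : ℕ} (hw : 1 ≤ w) (hX : 1 ≤ Fintype.card X)
    (hSF : SF ν ε r (2 * w)) {P : Finset Q} (hPne : P.Nonempty) {y : Q → Finset X}
    (hP : PS P y r (2 * w)) {ι : Type*} (inp : ι → Finset X → Bool)
    (hm : ∀ i, Mono fun W => inp i W = true) (hl : ∀ i, Loc 1 fun W => inp i W = true)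
    (F : Finset X → Prop) (hpos : ∀ π ∈ P, F (y π)) (hneg : pr ν F ≤ 1 / 2)
    {s : ℕ} (op : Fin s → Bool) (a b : Fin s → ι ⊕ Fin s) (o : Fin s)
    (hac : ∀ g j : Fin s, (a g = Sum.inr j → j < g) ∧ (b g = Sum.inr j → j < g))
    (hF : ∀ W, ∀ val : Fin s → Bool,
      (∀ g, val g = if op g then
        (Sum.elim (fun i => inp i W) val (a g) && Sum.elim (fun i => inp i W) val (b g))
        else (Sum.elim (fun i => inp i W) val (a g) || Sum.elim (fun i => inp i W) val (b g))) →
      (val o = true ↔ F W)) :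
    1 / 2 ≤ s * (ε * ((2 * w + 1) * Fintype.card X ^ (2 * w))) ∨ (4 : ℝ) ^ w ≤ s := by
  choose Ap hApm hApl hAp using approx_step hν hε hr hX hSF hP
  -- values of the gates
  have hval : ∀ W : Finset X, ∃ val : Fin s → Bool, ∀ g, val g = if op g then
      (Sum.elim (fun i => inp i W) val (a g) && Sum.elim (fun i => inp i W) val (b g))
      else (Sum.elim (fun i => inp i W) val (a g) || Sum.elim (fun i => inp i W) val (b g)) := by
    intro W
    refine exists_fix (fun val g => if op g then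
      (Sum.elim (fun i => inp i W) val (a g) && Sum.elim (fun i => inp i W) val (b g))
      else (Sum.elim (fun i => inp i W) val (a g) || Sum.elim (fun i => inp i W) val (b g))) ?_
    intro u v g huv
    have e1 : Sum.elim (fun i => inp i W) u (a g) = Sum.elim (fun i => inp i W) v (a g) := by
      rcases h : a g with i | j
      · rfl
      · exact huv j ((hac g j).1 h)
    have e2 : Sum.elim (fun i => inp i W) u (b g) = Sum.elim (fun i => inp i W) v (b g) := by
      rcases h : b g with i | j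
      · rfl
      · exact huv j ((hac g j).2 h)
    simp only [e1, e2]
  choose val hval using hval
  -- approximators
  let src : (Fin s → Finset X → Prop) → ι ⊕ Fin s → Finset X → Prop :=
    fun u z => Sum.elim (fun i W => inp i W = true) u z
  let pre : (Fin s → Finset X → Prop) → Fin s → Finset X → Prop := fun u g W =>
    if op g then src u (a g) W ∧ src u (b g) W else src u (a g) W ∨ src u (b g) W
  obtain ⟨ap, hap⟩ := exists_fix (β := Finset X → Prop) (fun u g => Ap (pre u g)) (by
    intro u v g huv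
    have e1 : src u (a g) = src v (a g) := by
      rcases h : a g with i | j
      · rfl
      · exact huv j ((hac g j).1 h)
    have e2 : src u (b g) = src v (b g) := by
      rcases h : b g with i | j
      · rfl
      · exact huv j ((hac g j).2 h)
    simp only [pre, e1, e2])
  have hsm : ∀ z, Mono (src ap z) := by
    rintro (i | j)
    · exact hm i
    · change Mono (ap j); rw [hap j]; exact hApm _
  have hsl : ∀ z, Loc w (src ap z) := by
    rintro (i | j)
    · intro W hW
      obtain ⟨A, h1, h2, h3⟩ := hl i W hW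
      exact ⟨A, h1, h2.trans hw, h3⟩
    · change Loc w (ap j); rw [hap j]; exact hApl _
  have hpm : ∀ g, Mono (pre ap g) := by
    intro g A B hAB
    simp only [pre]
    split_ifs
    · exact fun h => ⟨hsm _ _ _ hAB h.1, hsm _ _ _ hAB h.2⟩
    · exact fun h => h.imp (hsm _ _ _ hAB) (hsm _ _ _ hAB)
  have hpl : ∀ g, Loc (2 * w) (pre ap g) := by
    intro g W
    simp only [pre]
    split_ifs
    · rintro ⟨h1, h2⟩
      obtain ⟨A, hA, hA', hA''⟩ := hsl _ _ h1
      obtain ⟨B, hB, hB', hB''⟩ := hsl _ _ h2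
      refine ⟨A ∪ B, Finset.union_subset hA hB, (Finset.card_union_le _ _).trans (by omega),
        hsm _ _ _ Finset.subset_union_left hA'', hsm _ _ _ Finset.subset_union_right hB''⟩
    · rintro (h1 | h1)
      · obtain ⟨A, hA, hA', hA''⟩ := hsl _ _ h1
        exact ⟨A, hA, by omega, Or.inl hA''⟩
      · obtain ⟨A, hA, hA', hA''⟩ := hsl _ _ h1
        exact ⟨A, hA, by omega, Or.inr hA''⟩
  have hprop := fun g => hAp (pre ap g) (hpm g) (hpl g)
  simp only [← hap] at hprop
  have hnegc : ∀ W, (∀ g, ap g W → pre ap g W) → ∀ g, ap g W → val W g = true := by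
    intro W hW g
    induction g using WellFoundedLT.induction with
    | ind g ih =>
      intro hg
      have h1 := hW g hg
      have e1 : src ap (a g) W → Sum.elim (fun i => inp i W) (val W) (a g) = true := by
        rcases h : a g with i | j
        · exact id
        · exact ih j ((hac g j).1 h)
      have e2 : src ap (b g) W → Sum.elim (fun i => inp i W) (val W) (b g) = true := by
        rcases h : b g with i | j
        · exact id
        · exact ih j ((hac g j).2 h)
      rw [hval W g]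
      simp only [pre] at h1
      split_ifs at h1 ⊢
      · simp [e1 h1.1, e2 h1.2]
      · rcases h1 with h1 | h1
        · simp [e1 h1]
        · simp [e2 h1]
  have hposc : ∀ W, (∀ g, pre ap g W → ap g W) → ∀ g, val W g = true → ap g W := by
    intro W hW g
    induction g using WellFoundedLT.induction with
    | ind g ih =>
      intro hg
      have e1 : Sum.elim (fun i => inp i W) (val W) (a g) = true → src ap (a g) W := by
        rcases h : a g with i | j
        · exact id
        · exact ih j ((hac g j).1 h)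
      have e2 : Sum.elim (fun i => inp i W) (val W) (b g) = true → src ap (b g) W := by
        rcases h : b g with i | j
        · exact id
        · exact ih j ((hac g j).2 h)
      refine hW g ?_
      rw [hval W g] at hg
      simp only [pre]
      split_ifs at hg ⊢
      · rw [Bool.and_eq_true] at hg
        exact ⟨e1 hg.1, e2 hg.2⟩
      · rw [Bool.or_eq_true] at hg
        exact hg.imp e1 e2
  rcases (hprop o).1 with h0 | h0
  · left
    have h1 : pr ν (fun _ => True) ≤
        pr ν (fun W => F W ∨ ∃ g ∈ (Finset.univ : Finset (Fin s)), ap g W ∧ ¬ pre ap g W) := by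
      refine pr_mono hν fun W _ => ?_
      by_cases h : ∀ g, ap g W → pre ap g W
      · left
        refine (hF W _ (hval W)).1 (hnegc W h o ?_)
        exact hsm (Sum.inr o) _ _ (Finset.empty_subset W) h0
      · right
        push Not at h
        obtain ⟨g, hg⟩ := h
        exact ⟨g, Finset.mem_univ _, hg⟩
    have h2 := (h1.trans (pr_or_le hν _ _)).trans
      (add_le_add hneg ((pr_exists_le hν _ _).trans (Finset.sum_le_sum fun g _ => (hprop g).2.1)))
    rw [hν1, Finset.sum_const, Finset.card_univ, Fintype.card_fin, nsmul_eq_mul] at h2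
    linarith
  · right
    have h1 : P ⊆ (P.filter fun π => ap o (y π)) ∪ Finset.univ.biUnion fun g =>
        P.filter fun π => pre ap g (y π) ∧ ¬ ap g (y π) := by
      intro π hπ
      rw [Finset.mem_union]
      by_cases h : ∀ g, pre ap g (y π) → ap g (y π)
      · left
        exact Finset.mem_filter.2 ⟨hπ, hposc _ h o ((hF _ _ (hval _)).2 (hpos π hπ))⟩
      · right
        push Not at h
        obtain ⟨g, hg⟩ := h
        exact Finset.mem_biUnion.2 ⟨g, Finset.mem_univ _, Finset.mem_filter.2 ⟨hπ, hg⟩⟩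
    have h2 : (P.card : ℝ) ≤ (P.filter fun π => ap o (y π)).card + ∑ g : Fin s,
        ((P.filter fun π => pre ap g (y π) ∧ ¬ ap g (y π)).card : ℝ) := by
      exact_mod_cast (Finset.card_le_card h1).trans ((Finset.card_union_le _ _).trans
        (Nat.add_le_add_left Finset.card_biUnion_le _))
    have h3 := h2.trans (add_le_add h0 (Finset.sum_le_sum fun g _ => (hprop g).2.2))
    rw [Finset.sum_const, Finset.card_univ, Fintype.card_fin, nsmul_eq_mul] at h3
    have h4 : (0 : ℝ) < P.card := by exact_mod_cast hPne.card_pos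
    have h5 : (1 : ℝ) ≤ s * (1 / 4) ^ w := by
      by_contra hcon
      have h6 : (s : ℝ) * (P.card * ((1 / 4) ^ w / 3)) = P.card * (s * (1 / 4) ^ w) / 3 := by ring
      rw [h6] at h3
      nlinarith
    rw [one_div, inv_pow, ← div_eq_mul_inv, le_div_iff₀ (by positivity), one_mul] at h5
    exact h5

end Pool.Agent.MP_6b3410_lc.H5
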