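import Mathlib

/-!
Existence of almost lossless expanders, by counting.
-/

open Finset

namespace Pool.Agent.MP_6b3410_lc.H5

lemma choose_mul_le (n r : ℕ) : (n.choose r : ℝ) * (r : ℝ) ^ r ≤ (3 * n) ^ r := by
  have h1 : (n.choose r : ℝ) ≤ (n : ℝ) ^ r / r.factorial := Nat.choose_le_pow_div r n
  have h2 := Real.pow_div_factorial_le_exp (r : ℝ) (Nat.cast_nonneg r) r
  have h3 : Real.exp r ≤ 3 ^ r := by
    rw [← Real.exp_one_pow]
    exact pow_le_pow_left₀ (Real.exp_pos _).le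
      (Real.exp_one_lt_d9.le.trans (by norm_num)) r
  calc _ ≤ (n : ℝ) ^ r / r.factorial * (r : ℝ) ^ r :=
        mul_le_mul_of_nonneg_right h1 (by positivity)
    _ = (n : ℝ) ^ r * ((r : ℝ) ^ r / r.factorial) := by ring
    _ ≤ (n : ℝ) ^ r * 3 ^ r := mul_le_mul_of_nonneg_left (h2.trans h3) (by positivity)
    _ = _ := by rw [mul_pow]; ring

lemma exists_repeat {Ω Y : Type*} [DecidableEq Ω] [DecidableEq Y] (φ : Ω → Y) (S : Finset Ω) (g : ℕ)
    (h : (S.image φ).card + g ≤ S.card) :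
    ∃ R, R ⊆ S ∧ R.card = g ∧ ∀ ω ∈ R, ∃ ω' ∈ S, ω' ∉ R ∧ φ ω' = φ ω := by
  have hex : ∀ y : S.image φ, ∃ ω ∈ S, φ ω = y := fun y => Finset.mem_image.1 y.2
  choose t ht ht' using hex
  let S0 : Finset Ω := Finset.univ.image t
  have hS0 : S0.card ≤ (S.image φ).card := Finset.card_image_le.trans (by simp)
  have h1 : g ≤ (S \ S0).card := by
    have := Finset.le_card_sdiff S0 S
    omega
  obtain ⟨R, hR, hRc⟩ := Finset.exists_subset_card_eq h1
  refine ⟨R, hR.trans Finset.sdiff_subset, hRc, fun ω hω => ?_⟩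
  have hωS : ω ∈ S := (Finset.mem_sdiff.1 (hR hω)).1
  refine ⟨t ⟨φ ω, Finset.mem_image_of_mem φ hωS⟩, ht _, fun hc => ?_, ht' _⟩
  exact (Finset.mem_sdiff.1 (hR hc)).2 (Finset.mem_image_of_mem t (Finset.mem_univ _))

open Classical in
/-- maps that repeat, on `R`, values taken on `S \ R` -/
noncomputable def badSet {Ω : Type*} (Y : Type*) [Fintype Ω] [Fintype Y] (S R : Finset Ω) :
    Finset (Ω → Y) :=
  Finset.univ.filter fun φ : Ω → Y => ∀ ω ∈ R, ∃ ω' ∈ S, ω' ∉ R ∧ φ ω' = φ ω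

lemma mem_badSet {Ω Y : Type*} [Fintype Ω] [Fintype Y] {S R : Finset Ω} {φ : Ω → Y} :
    φ ∈ badSet Y S R ↔ ∀ ω ∈ R, ∃ ω' ∈ S, ω' ∉ R ∧ φ ω' = φ ω := by
  simp [badSet]

lemma count_repeat {Ω Y : Type*} [Fintype Ω] [Fintype Y] (S R : Finset Ω) :
    (badSet Y S R).card *
      Fintype.card Y ^ R.card ≤ S.card ^ R.card * Fintype.card Y ^ Fintype.card Ω := by
  classical
  set B := badSet Y S R with hB
  have hex : ∀ φ : B, ∀ ω : R, ∃ ω' : S, ω'.1 ∉ R ∧ φ.1 ω' = φ.1 ω := by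
    intro φ ω
    obtain ⟨ω', h1, h2, h3⟩ := mem_badSet.1 φ.2 ω ω.2
    exact ⟨⟨ω', h1⟩, h2, h3⟩
  choose ψ hψ hψ' using hex
  have hinj : Function.Injective
      (fun φ : B => ((ψ φ, fun ω => φ.1 ω.1) : (R → S) × ({ω // ω ∉ R} → Y))) := by
    intro φ φ' h
    obtain ⟨h1, h2⟩ := Prod.mk.inj h
    refine Subtype.ext (funext fun ω => ?_)
    by_cases hω : ω ∈ R
    · have e1 := hψ' φ ⟨ω, hω⟩
      have e2 := hψ' φ' ⟨ω, hω⟩
      have e3 := congrFun h2 ⟨(ψ φ ⟨ω, hω⟩).1, hψ φ _⟩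
      simp only at e1 e2 e3
      rw [← e1, ← e2, e3, h1]
    · exact congrFun h2 ⟨ω, hω⟩
  have h1 := Fintype.card_le_of_injective _ hinj
  simp only [Fintype.card_coe, Fintype.card_prod, Fintype.card_fun, Fintype.card_subtype_compl]
    at h1
  have h2 : R.card ≤ Fintype.card Ω := Finset.card_le_univ R
  calc _ ≤ S.card ^ R.card * Fintype.card Y ^ (Fintype.card Ω - R.card) *
        Fintype.card Y ^ R.card := Nat.mul_le_mul_right _ h1
    _ = _ := by rw [mul_assoc, ← pow_add, Nat.sub_add_cancel h2]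

theorem exists_expander (k c : ℕ) (T : Type*) [Fintype T] [DecidableEq T] (hk : 0 < k)
    (h : 4 * Fintype.card T ^ 3 * c ≤ k) :
    ∃ φ : Fin k × T → Fin k, ∀ J : Finset (Fin k), J.card ≤ c →
      J.card * Fintype.card T ≤ ((J ×ˢ Finset.univ).image φ).card + 3 * J.card := by
  by_contra hcon
  push Not at hcon
  set D := Fintype.card T with hD
  let bad : Finset (Fin k) → Finset (Fin k × T) → Finset (Fin k × T → Fin k) := fun J R =>
    badSet (Fin k) (J ×ˢ Finset.univ) R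
  have h1 : (Finset.univ : Finset (Fin k × T → Fin k)) ⊆
      (Finset.Ico 1 (c + 1)).biUnion fun j => (Finset.univ.powersetCard j).biUnion fun J =>
        ((J ×ˢ Finset.univ).powersetCard (3 * j)).biUnion fun R => bad J R := by
    intro φ _
    obtain ⟨J, hJ, hJ'⟩ := hcon φ
    obtain ⟨R, hR, hRc, hR'⟩ := exists_repeat φ (J ×ˢ Finset.univ) (3 * J.card) (by
      rw [Finset.card_product, Finset.card_univ]; exact hJ'.le)
    simp only [Finset.mem_biUnion, Finset.mem_Ico, Finset.mem_powersetCard]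
    refine ⟨J.card, ⟨?_, by omega⟩, J, ⟨Finset.subset_univ _, rfl⟩, R, ⟨hR, hRc⟩, ?_⟩
    · rcases Nat.eq_zero_or_pos J.card with h0 | h0
      · rw [h0] at hJ'; omega
      · exact h0
    · exact mem_badSet.2 hR'
  set tot : ℝ := (k : ℝ) ^ Fintype.card (Fin k × T) with htot
  have hk' : (0 : ℝ) < k := by exact_mod_cast hk
  have htot0 : 0 < tot := by positivity
  have h2 : ∀ j ∈ Finset.Ico 1 (c + 1), (((Finset.univ.powersetCard j).biUnion fun J =>
      ((J ×ˢ Finset.univ).powersetCard (3 * j)).biUnion fun R => bad J R).card : ℝ) ≤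
      tot * (1 / 4) ^ j := by
    intro j hj
    obtain ⟨hj1, hjc⟩ := Finset.mem_Ico.1 hj
    have hj0 : (0 : ℝ) < j := by exact_mod_cast hj1
    have h3 : ∀ J ∈ (Finset.univ : Finset (Fin k)).powersetCard j,
        ∀ R ∈ (J ×ˢ (Finset.univ : Finset T)).powersetCard (3 * j),
        ((bad J R).card : ℝ) ≤ tot * ((j * D : ℝ) / k) ^ (3 * j) := by
      intro J hJ R hR
      have h4 := count_repeat (Y := Fin k) (J ×ˢ (Finset.univ : Finset T)) R
      rw [Finset.card_product, Finset.card_univ, (Finset.mem_powersetCard.1 hJ).2,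
        (Finset.mem_powersetCard.1 hR).2, Fintype.card_fin] at h4
      rw [div_pow, ← mul_div_assoc, le_div_iff₀ (by positivity), mul_comm tot, htot]
      have h5 : (((bad J R).card * k ^ (3 * j) : ℕ) : ℝ) ≤
          (((j * D) ^ (3 * j) * k ^ Fintype.card (Fin k × T) : ℕ) : ℝ) := by
        exact Nat.cast_le.2 h4
      push_cast at h5
      exact h5
    have h4 : ∀ J ∈ (Finset.univ : Finset (Fin k)).powersetCard j,
        ((((J ×ˢ Finset.univ).powersetCard (3 * j)).biUnion fun R => bad J R).card : ℝ) ≤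
        ((j * D).choose (3 * j) : ℝ) * (tot * ((j * D : ℝ) / k) ^ (3 * j)) := by
      intro J hJ
      calc _ ≤ ((∑ R ∈ (J ×ˢ (Finset.univ : Finset T)).powersetCard (3 * j),
            (bad J R).card : ℕ) : ℝ) := by exact_mod_cast Finset.card_biUnion_le
        _ ≤ ∑ _R ∈ (J ×ˢ (Finset.univ : Finset T)).powersetCard (3 * j),
            tot * ((j * D : ℝ) / k) ^ (3 * j) := by
            push_cast; exact Finset.sum_le_sum (h3 J hJ)
        _ = _ := by
            rw [Finset.sum_const, nsmul_eq_mul, Finset.card_powersetCard, Finset.card_product,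
              Finset.card_univ, (Finset.mem_powersetCard.1 hJ).2]
    have h5 : (k.choose j : ℝ) ≤ (3 * k / j) ^ j := by
      rw [div_pow, le_div_iff₀ (by positivity)]; exact choose_mul_le k j
    have h6 : ((j * D).choose (3 * j) : ℝ) ≤ (D : ℝ) ^ (3 * j) := by
      have h7 := choose_mul_le (j * D) (3 * j)
      have h8 : (0 : ℝ) < ((3 * j : ℕ) : ℝ) ^ (3 * j) := by positivity
      refine le_of_mul_le_mul_right (h7.trans (le_of_eq ?_)) h8
      rw [← mul_pow]; push_cast; ring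
    have h7 : (3 * k / j : ℝ) * ((D : ℝ) ^ 3 * ((j * D : ℝ) / k) ^ 3) ≤ 1 / 4 := by
      have h8 : (4 * (D : ℝ) ^ 3 * j) ≤ k := by
        have : 4 * D ^ 3 * j ≤ k := le_trans (Nat.mul_le_mul_left _ (by omega)) h
        exact_mod_cast this
      have h9 : (3 * k / j : ℝ) * ((D : ℝ) ^ 3 * ((j * D : ℝ) / k) ^ 3) =
          3 / 16 * ((4 * (D : ℝ) ^ 3 * j) / k) ^ 2 := by field_simp; ring
      have h10 : (4 * (D : ℝ) ^ 3 * j) / k ≤ 1 := (div_le_one hk').2 h8
      have h11 : 0 ≤ (4 * (D : ℝ) ^ 3 * j) / k := by positivity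
      rw [h9]; nlinarith
    calc _ ≤ ((∑ J ∈ (Finset.univ : Finset (Fin k)).powersetCard j,
          (((J ×ˢ Finset.univ).powersetCard (3 * j)).biUnion fun R => bad J R).card : ℕ) : ℝ) := by
          exact_mod_cast Finset.card_biUnion_le
      _ ≤ ∑ _J ∈ (Finset.univ : Finset (Fin k)).powersetCard j,
          ((j * D).choose (3 * j) : ℝ) * (tot * ((j * D : ℝ) / k) ^ (3 * j)) := by
          push_cast; exact Finset.sum_le_sum h4
      _ = (k.choose j : ℝ) * (((j * D).choose (3 * j) : ℝ) *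
          (tot * ((j * D : ℝ) / k) ^ (3 * j))) := by
          rw [Finset.sum_const, nsmul_eq_mul, Finset.card_powersetCard, Finset.card_univ,
            Fintype.card_fin]
      _ ≤ (3 * k / j) ^ j * ((D : ℝ) ^ (3 * j) * (tot * ((j * D : ℝ) / k) ^ (3 * j))) := by
          gcongr
      _ = tot * ((3 * k / j : ℝ) * ((D : ℝ) ^ 3 * ((j * D : ℝ) / k) ^ 3)) ^ j := by
          rw [mul_pow, mul_pow, ← pow_mul, ← pow_mul]; ring
      _ ≤ _ := by gcongr
  have h3 : tot ≤ ∑ j ∈ Finset.Ico 1 (c + 1), tot * (1 / 4) ^ j := by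
    calc tot = ((Finset.univ : Finset (Fin k × T → Fin k)).card : ℝ) := by
          rw [Finset.card_univ, Fintype.card_fun, Fintype.card_fin]; push_cast; rfl
      _ ≤ ((∑ j ∈ Finset.Ico 1 (c + 1), ((Finset.univ.powersetCard j).biUnion fun J =>
        ((J ×ˢ Finset.univ).powersetCard (3 * j)).biUnion fun R => bad J R).card : ℕ) : ℝ) := by
          exact_mod_cast (Finset.card_le_card h1).trans Finset.card_biUnion_le
      _ ≤ _ := by push_cast; exact Finset.sum_le_sum h2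
  rw [← Finset.mul_sum] at h3
  have h4 := geom_sum_Ico_le_of_lt_one (x := (1 / 4 : ℝ)) (m := 1) (n := c + 1)
    (by norm_num) (by norm_num)
  norm_num at h4
  nlinarith

end Pool.Agent.MP_6b3410_lc.H5
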