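import Mathlib
import Pool.Agent.MP_6b3410_lc.H5.DHam

/-!
The directed graph whose Hamilton cycles read off a word of hidden bits.
-/

namespace Pool.Agent.MP_6b3410_lc.H5

open Classical

/-- clause nodes: position, side, label -/
abbrev Nd (k t : ℕ) : Type := Fin k × Bool × (Fin t → Bool)

/-- variables: position and two labels -/
abbrev Var (k t : ℕ) : Type := Fin k × (Fin t → Bool) × (Fin t → Bool)

/-- vertices -/
inductive Vx (M k t : ℕ) : Type
  | E (j : Fin M) (b : Bool) : Vx M k t
  | Mi (j : Fin M) : Vx M k t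
  | C (c : Nd k t) : Vx M k t
  | P (i : Fin (k + 1)) : Vx M k t

def vxEquiv (M k t : ℕ) : ((Fin M × Bool) ⊕ Fin M ⊕ Nd k t ⊕ Fin (k + 1)) ≃ Vx M k t where
  toFun
    | Sum.inl x => Vx.E x.1 x.2
    | Sum.inr (Sum.inl j) => Vx.Mi j
    | Sum.inr (Sum.inr (Sum.inl c)) => Vx.C c
    | Sum.inr (Sum.inr (Sum.inr i)) => Vx.P i
  invFun
    | Vx.E j b => Sum.inl (j, b)
    | Vx.Mi j => Sum.inr (Sum.inl j)
    | Vx.C c => Sum.inr (Sum.inr (Sum.inl c))
    | Vx.P i => Sum.inr (Sum.inr (Sum.inr i))
  left_inv := by rintro (x | j | c | i) <;> rfl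
  right_inv := by rintro (_ | _ | _ | _) <;> rfl

instance (M k t : ℕ) : Fintype (Vx M k t) := Fintype.ofEquiv _ (vxEquiv M k t)

lemma card_vx (M k t : ℕ) : Fintype.card (Vx M k t) = 3 * M + 2 * k * 2 ^ t + (k + 1) := by
  rw [← Fintype.card_congr (vxEquiv M k t)]
  simp
  ring

variable {M k t : ℕ} (φ : Fin k × Bool × Fin t → Fin k) (e : Fin M ≃ Nd k t × Fin t)

/-- the hidden bit that a slot belongs to -/
def own (j : Fin M) : Fin k := φ ((e j).1.1, (e j).1.2.1, (e j).2)

/-- the bit of the label of the clause node of a slot -/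
def pol (j : Fin M) : Bool := (e j).1.2.2 (e j).2

/-- arcs -/
def Arc (W : Finset (Var k t)) : Vx M k t → Vx M k t → Prop
  | Vx.E j _, Vx.Mi j' => j = j'
  | Vx.Mi j, Vx.E j' _ => j = j'
  | Vx.E j b, Vx.E j' b' => j.val + 1 = j'.val ∧ (b' = !b ∨ own φ e j ≠ own φ e j')
  | Vx.E j b, Vx.C c => (e j).1 = c ∧ b = !pol e j
  | Vx.C c, Vx.Mi j => (e j).1 = c
  | Vx.E j _, Vx.P i => j.val + 1 = M ∧ i.val = 0
  | Vx.P i, Vx.E j _ => i.val = k ∧ j.val = 0
  | Vx.P i, Vx.C c => c.1.val = i.val ∧ c.2.1 = false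
  | Vx.C c, Vx.C c' => c.1 = c'.1 ∧ c.2.1 = false ∧ c'.2.1 = true ∧ (c.1, c.2.2, c'.2.2) ∈ W
  | Vx.C c, Vx.P i => c.2.1 = true ∧ c.1.val + 1 = i.val
  | _, _ => False

/-- the label read off the hidden bits `m` -/
def lab (m : Fin k → Bool) (i : Fin k) (side : Bool) : Fin t → Bool := fun τ => m (φ (i, side, τ))

lemma arc_single (u v : Vx M k t) (W : Finset (Var k t)) (h : Arc φ e W u v) :
    ∃ A, A ⊆ W ∧ A.card ≤ 1 ∧ Arc φ e A u v := by
  cases u <;> cases v <;> first
    | exact ⟨∅, Finset.empty_subset _, by simp, h⟩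
    | skip
  rename_i c c'
  exact ⟨{(c.1, c.2.2, c'.2.2)}, by simpa using h.2.2.2, by simp, h.1, h.2.1, h.2.2.1, by simp⟩

lemma arc_mono (u v : Vx M k t) {W W' : Finset (Var k t)} (hW : W ⊆ W') (h : Arc φ e W u v) :
    Arc φ e W' u v := by
  cases u <;> cases v <;> first
    | exact h
    | skip
  exact ⟨h.1, h.2.1, h.2.2.1, hW h.2.2.2⟩

theorem gadget_sound (hM : 0 < M) (hmono : Monotone (own φ e)) {W : Finset (Var k t)}
    (h : DHam (Arc φ e W)) :
    ∃ m : Fin k → Bool, ∀ i, (i, lab φ m i false, lab φ m i true) ∈ W := by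
  obtain ⟨σ, hσ⟩ := h
  have hsurj := Finite.injective_iff_surjective.1 hσ.inj
  have h2 := hσ.no_two (Vx.E ⟨0, hM⟩ true) (Vx.E ⟨0, hM⟩ false) (Vx.Mi ⟨0, hM⟩)
    (by simp) (by simp) (by simp)
  have h3 := hσ.no_three (Vx.E ⟨0, hM⟩ true) (Vx.E ⟨0, hM⟩ false) (Vx.Mi ⟨0, hM⟩) (Vx.P 0)
    (by simp) (by simp) (by simp) (by simp) (by simp) (by simp)
  have hMi : ∀ j, ∃ b, σ (Vx.Mi j) = Vx.E j (!b) := by
    intro j
    have := hσ.arc (Vx.Mi j)
    rcases hv : σ (Vx.Mi j) with ⟨j', b⟩ | _ | _ | _ <;> rw [hv] at this <;>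
      simp only [Arc] at this
    exact ⟨!b, by rw [this, Bool.not_not]⟩
  choose st hst using hMi
  -- forward moves
  let Fw : Fin M → Vx M k t → Prop := fun j v =>
    (∃ j' b', v = Vx.E j' b' ∧ j.val + 1 = j'.val) ∨ (v = Vx.P 0 ∧ j.val + 1 = M)
  have hout : ∀ j b, σ (Vx.E j b) = Vx.Mi j ∨ Fw j (σ (Vx.E j b)) ∨
      (σ (Vx.E j b) = Vx.C (e j).1 ∧ b = !pol e j) := by
    intro j b
    have := hσ.arc (Vx.E j b)
    rcases hv : σ (Vx.E j b) with ⟨j', b'⟩ | j' | c | i <;> rw [hv] at this <;>
      simp only [Arc] at this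
    · exact Or.inr (Or.inl (Or.inl ⟨j', b', rfl, this.1⟩))
    · exact Or.inl (by rw [this])
    · exact Or.inr (Or.inr ⟨by rw [this.1], this.2⟩)
    · exact Or.inr (Or.inl (Or.inr ⟨by rw [show i = 0 from Fin.ext this.2], this.1⟩))
  have ha : ∀ j b, Fw j (σ (Vx.E j b)) → ¬ Fw j (σ (Vx.E j (!b))) := by
    rintro j b (⟨j1, b1, e1, e2⟩ | ⟨e1, e2⟩) (⟨j2, b2, e3, e4⟩ | ⟨e3, e4⟩)
    · obtain rfl : j1 = j2 := Fin.ext (by omega)
      by_cases hb : b1 = b2
      · have := hσ.inj (e1.trans (hb ▸ e3).symm)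
        simp at this
      · by_cases hb1 : b1 = !st j1
        · have := hσ.inj (e1.trans (hb1 ▸ hst j1).symm)
          simp at this
        · have hb2 : b2 = !st j1 := by
            revert hb hb1; cases b1 <;> cases b2 <;> cases st j1 <;> simp
          have := hσ.inj (e3.trans (hb2 ▸ hst j1).symm)
          simp at this
    · have := j1.2; omega
    · have := j2.2; omega
    · have := hσ.inj (e1.trans e3.symm)
      simp at this
  have hb : ∀ j, σ (Vx.E j (st j)) = Vx.Mi j ∨ σ (Vx.C (e j).1) = Vx.Mi j := by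
    intro j
    obtain ⟨u, hu⟩ := hsurj (Vx.Mi j)
    have := hσ.arc u
    rw [hu] at this
    rcases u with ⟨j', b'⟩ | j' | c | i <;> simp only [Arc] at this
    · subst this
      by_cases hb : b' = st j'
      · exact Or.inl (hb ▸ hu)
      · exfalso
        have hb' : b' = !st j' := by revert hb; cases b' <;> cases st j' <;> simp
        exact h2 (Vx.Mi j') (by rw [hst, ← hb', hu])
    · exact Or.inr (this ▸ hu)
  have hc : ∀ j, ∃ b, Fw j (σ (Vx.E j b)) := by
    intro j
    by_cases hj : j.val + 1 < M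
    · obtain ⟨u, hu⟩ := hsurj (Vx.E ⟨j.val + 1, hj⟩ (st ⟨j.val + 1, hj⟩))
      have := hσ.arc u
      rw [hu] at this
      rcases u with ⟨j', b'⟩ | j' | c | i <;> simp only [Arc] at this
      · obtain rfl : j' = j := Fin.ext (by omega)
        exact ⟨b', Or.inl ⟨_, _, hu, rfl⟩⟩
      · subst this
        rw [hst] at hu
        simp at hu
      · omega
    · obtain ⟨u, hu⟩ := hsurj (Vx.P 0)
      have := hσ.arc u
      rw [hu] at this
      rcases u with ⟨j', b'⟩ | j' | c | i <;> simp only [Arc] at this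
      · have := j.2
        obtain rfl : j' = j := Fin.ext (by omega)
        exact ⟨b', Or.inr ⟨hu, by omega⟩⟩
      · simp at this
  have hnF1 : ∀ j j', ¬ Fw j (Vx.Mi j') := by
    rintro j j' (⟨_, _, h, _⟩ | ⟨h, _⟩) <;> simp at h
  have hnF2 : ∀ j c, ¬ Fw j (Vx.C c) := by
    rintro j j' (⟨_, _, h, _⟩ | ⟨h, _⟩) <;> simp at h
  have hd : ∀ j, Fw j (σ (Vx.E j (!st j))) := by
    intro j
    rcases hout j (!st j) with h | h | h
    · exact absurd (by rw [hst, h]) (h2 (Vx.Mi j))
    · exact h
    · exfalso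
      obtain ⟨b, hb'⟩ := hc j
      have e1 : b = st j := by
        by_contra hne
        have : b = !st j := by revert hne; cases b <;> cases st j <;> simp
        rw [this, h.1] at hb'
        exact hnF2 _ _ hb'
      rw [e1] at hb'
      rcases hb j with h' | h'
      · rw [h'] at hb'; exact hnF1 _ _ hb'
      · exact h3 (Vx.Mi j) (by rw [hst, h.1, h'])
  have he : ∀ j, σ (Vx.E j (st j)) = Vx.Mi j ∨
      (σ (Vx.E j (st j)) = Vx.C (e j).1 ∧ st j = !pol e j) := by
    intro j
    rcases hout j (st j) with h | h | h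
    · exact Or.inl h
    · exact absurd (hd j) (ha j _ h)
    · exact Or.inr h
  have hin : ∀ j b c, σ (Vx.E j b) = Vx.C c →
      (e j).1 = c ∧ st j = !pol e j ∧ σ (Vx.C c) = Vx.Mi j := by
    intro j b c h
    have e1 : b = st j := by
      by_contra hne
      have : b = !st j := by revert hne; cases b <;> cases st j <;> simp
      have h' := hd j
      rw [← this, h] at h'
      exact hnF2 _ _ h'
    subst e1
    rcases he j with h' | h'
    · rw [h] at h'; simp at h'
    · have e2 : (e j).1 = c := by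
        have := h'.1.symm.trans h
        simpa using this
      refine ⟨e2, h'.2, ?_⟩
      rcases hb j with h'' | h''
      · rw [h] at h''; simp at h''
      · rwa [e2] at h''
  have hprop : ∀ j j' : Fin M, j.val + 1 = j'.val → own φ e j = own φ e j' → st j = st j' := by
    intro j j' h ho
    rcases hd j with ⟨j1, b1, e1, e2⟩ | ⟨-, e2⟩
    · obtain rfl : j1 = j' := Fin.ext (by omega)
      have := hσ.arc (Vx.E j (!st j))
      rw [e1] at this
      simp only [Arc, Bool.not_not] at this
      rcases this.2 with e3 | e3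
      · by_contra hne
        have e4 : b1 = !st j1 := by rw [e3]; revert hne; cases st j <;> cases st j1 <;> simp
        have := hσ.inj (e1.trans (e4 ▸ hst j1).symm)
        simp at this
      · exact absurd ho e3
    · have := j'.2; omega
  have hprop2 : ∀ d : ℕ, ∀ j j' : Fin M, j.val + d = j'.val → own φ e j = own φ e j' →
      st j = st j' := by
    intro d
    induction d with
    | zero => intro j j' h _; rw [show j = j' from Fin.ext h]
    | succ d ih =>
      intro j j' h ho
      have := j'.2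
      let j1 : Fin M := ⟨j.val + d, by omega⟩
      have e1 : own φ e j ≤ own φ e j1 := hmono (show j.val ≤ j.val + d by omega)
      have e2 : own φ e j1 ≤ own φ e j' := hmono (show j.val + d ≤ j'.val by omega)
      have e3 : own φ e j = own φ e j1 := le_antisymm e1 (ho ▸ e2)
      rw [ih j j1 rfl e3]
      exact hprop j1 j' (by simp only [j1]; omega) (e3 ▸ ho)
  have hprop3 : ∀ j j' : Fin M, own φ e j = own φ e j' → st j = st j' := by
    intro j j' ho
    rcases le_total j.val j'.val with h | h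
    · exact hprop2 (j'.val - j.val) j j' (by omega) ho
    · exact (hprop2 (j.val - j'.val) j' j (by omega) ho.symm).symm
  let m : Fin k → Bool := fun z => if h : ∃ j, own φ e j = z then st h.choose else false
  have hm : ∀ j, m (own φ e j) = st j := by
    intro j
    have hex : ∃ j', own φ e j' = own φ e j := ⟨j, rfl⟩
    simp only [m]
    rw [dif_pos hex]
    exact hprop3 _ _ hex.choose_spec
  have hnot : ∀ i side j b, σ (Vx.E j b) ≠ Vx.C (i, side, lab φ m i side) := by
    intro i side j b h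
    obtain ⟨e1, e2, -⟩ := hin j b _ h
    have : pol e j = st j := by
      rw [← hm j, pol, own, e1]; rfl
    rw [this] at e2
    simp at e2
  refine ⟨m, fun i => ?_⟩
  have hP : ∀ α, (∀ j b, σ (Vx.E j b) ≠ Vx.C (i, false, α)) →
      σ (Vx.P i.castSucc) = Vx.C (i, false, α) := by
    intro α hα
    obtain ⟨u, hu⟩ := hsurj (Vx.C (i, false, α))
    have := hσ.arc u
    rw [hu] at this
    rcases u with ⟨j', b'⟩ | j' | c | i' <;> simp only [Arc] at this
    · exact absurd hu (hα _ _)
    · simp at this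
    · rw [← hu, show i.castSucc = i' from Fin.ext this.1]
  obtain ⟨u, hu⟩ := hsurj (Vx.C (i, true, lab φ m i true))
  have := hσ.arc u
  rw [hu] at this
  rcases u with ⟨j', b'⟩ | j' | ⟨i', side, α⟩ | i' <;> simp only [Arc] at this
  · exact absurd hu (hnot _ _ _ _)
  · obtain ⟨rfl, rfl, -, hW⟩ := this
    have e1 := hP α (fun j b h => by
      have := (hin j b _ h).2.2
      rw [hu] at this
      simp at this)
    have e2 := hP _ (hnot i' false)
    have e3 : α = lab φ m i' false := by simpa using e1.symm.trans e2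
    rwa [e3] at hW
  · simp at this

theorem gadget_complete (hM : 0 < M) {W : Finset (Var k t)} (m : Fin k → Bool)
    (hW : ∀ i, (i, lab φ m i false, lab φ m i true) ∈ W) : DHam (Arc φ e W) := by
  let st : Fin M → Bool := fun j => m (own φ e j)
  let ch : Nd k t → Prop := fun c => c.2.2 = lab φ m c.1 c.2.1
  have hex : ∀ c : Nd k t, ∃ j : Fin M, ¬ ch c → (e j).1 = c ∧ st j = !pol e j := by
    intro c
    by_cases hc : ch c
    · exact ⟨⟨0, hM⟩, fun h => absurd hc h⟩
    · obtain ⟨τ, hτ⟩ := Function.ne_iff.1 hc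
      refine ⟨e.symm (c, τ), fun _ => ⟨by simp, ?_⟩⟩
      simp only [st, own, pol, Equiv.apply_symm_apply]
      simp only [lab] at hτ
      revert hτ
      cases c.2.2 τ <;> cases m (φ (c.1, c.2.1, τ)) <;> simp
  choose slot hslot using hex
  let det : Fin M → Prop := fun j => ¬ ch (e j).1 ∧ slot (e j).1 = j
  let σ : Vx M k t → Vx M k t
    | Vx.E j b => if b = st j then (if det j then Vx.C (e j).1 else Vx.Mi j)
        else (if h : j.val + 1 < M then Vx.E ⟨j.val + 1, h⟩ (st ⟨j.val + 1, h⟩) else Vx.P 0)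
    | Vx.Mi j => Vx.E j (!st j)
    | Vx.C c => if ch c then (if c.2.1 = false then Vx.C (c.1, true, lab φ m c.1 true)
        else Vx.P c.1.succ) else Vx.Mi (slot c)
    | Vx.P i => if h : i.val < k then Vx.C (⟨i.val, h⟩, false, lab φ m ⟨i.val, h⟩ false)
        else Vx.E ⟨0, hM⟩ (st ⟨0, hM⟩)
  let ρ : Vx M k t → ℕ
    | Vx.E j b => if b = st j then 4 * j.val else 4 * j.val + 3
    | Vx.Mi j => 4 * j.val + 2
    | Vx.C c => if ch c then 4 * M + 3 * c.1.val + (if c.2.1 = false then 1 else 2)
        else 4 * (slot c).val + 1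
    | Vx.P i => 4 * M + 3 * i.val
  have hsurj : Function.Surjective σ := by
    rintro (⟨j, b⟩ | j | c | i)
    · by_cases hb : b = st j
      · rcases Nat.eq_zero_or_pos j.val with h0 | h0
        · refine ⟨Vx.P (Fin.last k), ?_⟩
          obtain rfl : j = ⟨0, hM⟩ := Fin.ext h0
          simp [σ, hb]
        · have := j.2
          refine ⟨Vx.E ⟨j.val - 1, by omega⟩ (!st ⟨j.val - 1, by omega⟩), ?_⟩
          have e1 : j.val - 1 + 1 = j.val := by omega
          simp [σ, hb, e1]
      · refine ⟨Vx.Mi j, ?_⟩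
        have : b = !st j := by revert hb; cases b <;> cases st j <;> simp
        simp [σ, this]
    · by_cases hd : det j
      · exact ⟨Vx.C (e j).1, by simp [σ, hd.1, hd.2]⟩
      · exact ⟨Vx.E j (st j), by simp [σ, hd]⟩
    · by_cases hc : ch c
      · obtain ⟨i, side, α⟩ := c
        obtain rfl : α = lab φ m i side := hc
        cases side
        · exact ⟨Vx.P i.castSucc, by simp [σ]⟩
        · exact ⟨Vx.C (i, false, lab φ m i false), by simp [σ, ch]⟩
      · refine ⟨Vx.E (slot c) (st (slot c)), ?_⟩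
        have hd : det (slot c) := by
          simp only [det, (hslot c hc).1]; exact ⟨hc, trivial⟩
        simp [σ, hd, (hslot c hc).1]
    · rcases Nat.eq_zero_or_pos i.val with h0 | h0
      · refine ⟨Vx.E ⟨M - 1, by omega⟩ (!st ⟨M - 1, by omega⟩), ?_⟩
        obtain rfl : i = 0 := Fin.ext h0
        have e1 : ¬ (M - 1 + 1 < M) := by omega
        simp [σ, e1]
      · have := i.2
        refine ⟨Vx.C (⟨i.val - 1, by omega⟩, true, lab φ m ⟨i.val - 1, by omega⟩ true), ?_⟩
        simp only [σ, ch, if_true, Bool.true_eq_false, if_false]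
        congr 1
        exact Fin.ext (by simp only [Fin.val_succ]; omega)
  refine ⟨σ, Cyc.of_rank (Finite.injective_iff_surjective.2 hsurj) ?_ ρ (Vx.P (Fin.last k)) ?_⟩
  · rintro (⟨j, b⟩ | j | c | i)
    · simp only [σ]
      split_ifs with h1 h2 h3
      · refine ⟨rfl, ?_⟩
        have := (hslot _ h2.1).2
        rw [h2.2] at this
        rw [h1, this]
      · rfl
      · refine ⟨rfl, ?_⟩
        by_cases ho : own φ e j = own φ e ⟨j.val + 1, h3⟩
        · left
          have : st ⟨j.val + 1, h3⟩ = st j := by simp only [st, ho]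
          rw [this]
          revert h1; cases b <;> cases st j <;> simp
        · exact Or.inr ho
      · have := j.2
        exact ⟨by omega, rfl⟩
    · rfl
    · simp only [σ]
      split_ifs with h1 h2
      · refine ⟨rfl, h2, rfl, ?_⟩
        have := hW c.1
        simp only [ch, h2] at h1
        rw [h1]; exact this
      · exact ⟨by simpa using h2, rfl⟩
      · exact (hslot c h1).1
    · simp only [σ]
      split_ifs with h1
      · exact ⟨rfl, rfl⟩
      · have := i.2
        exact ⟨by omega, rfl⟩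
  · rintro (⟨j, b⟩ | j | c | i) hv
    · simp only [σ]
      split_ifs with h1 h2 h3
      · simp [ρ, h1, h2.1, h2.2]
      · simp [ρ, h1]
      · simp only [ρ, h1, if_true, if_false]; omega
      · have := j.2
        simp only [ρ, h1, if_false]; omega
    · simp [σ, ρ]
    · simp only [σ]
      split_ifs with h1 h2
      · simp [ρ, h1, h2, ch]
      · simp only [ρ]
        rw [if_pos h1, if_neg h2, Fin.val_succ]; omega
      · simp [ρ, h1]
    · simp only [σ]
      split_ifs with h1
      · simp [ρ, ch]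
      · have := i.2
        exact absurd (by rw [show i = Fin.last k from Fin.ext (by simp; omega)]) hv

end Pool.Agent.MP_6b3410_lc.H5
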