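import Mathlib
import Pool.Agent.MP_6b3410_lc.H5.Approx
import Pool.Agent.MP_6b3410_lc.H5.Expander
import Pool.Agent.MP_6b3410_lc.H5.Gadget

/-!
The lower bound for monotone circuits computing Hamiltonicity.
-/

open Finset

namespace Pool.Agent.MP_6b3410_lc.H5

open Classical

variable {k t : ℕ} (φ : Fin k × Bool × Fin t → Fin k)

/-- the positive input that belongs to the hidden word `m` -/
def yy (m : Fin k → Bool) : Finset (Var k t) :=
  Finset.univ.image fun i => (i, lab φ m i false, lab φ m i true)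

lemma mem_yy {m : Fin k → Bool} {x : Var k t} :
    x ∈ yy φ m ↔ x.2.1 = lab φ m x.1 false ∧ x.2.2 = lab φ m x.1 true := by
  simp only [yy, Finset.mem_image, Finset.mem_univ, true_and]
  constructor
  · rintro ⟨i, rfl⟩; exact ⟨rfl, rfl⟩
  · rintro ⟨h1, h2⟩
    exact ⟨x.1, by rw [← h1, ← h2]⟩

lemma card_yy (m : Fin k → Bool) : (yy φ m).card = k := by
  rw [yy, Finset.card_image_of_injective _ (fun i j h => congrArg Prod.fst h)]
  simp

lemma count_agree {Y : Type*} [Fintype Y] [DecidableEq Y] (N : Finset Y) (m0 : Y → Bool)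
    (B : Finset (Y → Bool)) (hB : ∀ m ∈ B, ∀ z ∈ N, m z = m0 z) :
    B.card * 2 ^ N.card ≤ 2 ^ Fintype.card Y := by
  have hinj : Function.Injective (fun m : B => (fun z => m.1 z.1 : {z // z ∉ N} → Bool)) := by
    intro m m' h
    refine Subtype.ext (funext fun z => ?_)
    by_cases hz : z ∈ N
    · rw [hB _ m.2 z hz, hB _ m'.2 z hz]
    · exact congrFun h ⟨z, hz⟩
  have h1 := Fintype.card_le_of_injective _ hinj
  simp only [Fintype.card_coe, Fintype.card_fun, Fintype.card_subtype_compl, Fintype.card_bool]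
    at h1
  calc _ ≤ 2 ^ (Fintype.card Y - N.card) * 2 ^ N.card := Nat.mul_le_mul_right _ h1
    _ = _ := by rw [← pow_add, Nat.sub_add_cancel (Finset.card_le_univ N)]

lemma ps_of_expander {c : ℕ} {r : ℝ} (hr0 : 0 ≤ r) (hr : 32 * r ≤ 4 ^ t)
    (hφ : ∀ J : Finset (Fin k), J.card ≤ c → J.card * Fintype.card (Bool × Fin t) ≤
      ((J ×ˢ Finset.univ).image φ).card + 3 * J.card) :
    PS Finset.univ (yy φ) r c := by
  intro A hA
  rcases (Finset.univ.filter fun m => A ⊆ yy φ m).eq_empty_or_nonempty with h | ⟨m0, hm0⟩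
  · rw [h]; simp
  have hm0' : A ⊆ yy φ m0 := (Finset.mem_filter.1 hm0).2
  have hJ : (A.image Prod.fst).card = A.card := by
    refine Finset.card_image_of_injOn fun x hx x' hx' h => ?_
    have h1 := (mem_yy φ).1 (hm0' hx)
    have h2 := (mem_yy φ).1 (hm0' hx')
    exact Prod.ext h (Prod.ext (by rw [h1.1, h2.1, h]) (by rw [h1.2, h2.2, h]))
  have h1 := hφ (A.image Prod.fst) (hJ ▸ hA)
  set N := ((A.image Prod.fst) ×ˢ Finset.univ).image φ with hN
  rw [hJ] at h1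
  have h2 := count_agree N m0 (Finset.univ.filter fun m => A ⊆ yy φ m) (by
    intro m hm z hz
    obtain ⟨⟨i, side, τ⟩, hi, rfl⟩ := Finset.mem_image.1 hz
    obtain ⟨x, hx, rfl⟩ := Finset.mem_image.1 (Finset.mem_product.1 hi).1
    have e1 := (mem_yy φ).1 ((Finset.mem_filter.1 hm).2 hx)
    have e2 := (mem_yy φ).1 (hm0' hx)
    cases side
    · exact congrFun (e1.1.symm.trans e2.1) τ
    · exact congrFun (e1.2.symm.trans e2.2) τ)
  have h3 : (4 * r) ^ A.card ≤ 2 ^ N.card := by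
    have e1 : (0 : ℝ) < 8 ^ A.card := by positivity
    refine le_of_mul_le_mul_right ?_ e1
    calc (4 * r) ^ A.card * 8 ^ A.card = (32 * r) ^ A.card := by rw [← mul_pow]; ring
      _ ≤ (4 ^ t) ^ A.card := pow_le_pow_left₀ (by positivity) hr _
      _ = 2 ^ (A.card * Fintype.card (Bool × Fin t)) := by
          rw [show (4 : ℝ) = 2 ^ 2 by norm_num, ← pow_mul, ← pow_mul]
          simp only [Fintype.card_prod, Fintype.card_bool, Fintype.card_fin]
          congr 1; ring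
      _ ≤ 2 ^ (N.card + 3 * A.card) := pow_le_pow_right₀ (by norm_num) h1
      _ = _ := by rw [pow_add, pow_mul]; norm_num
  calc _ ≤ ((Finset.univ.filter fun m => A ⊆ yy φ m).card : ℝ) * 2 ^ N.card :=
        mul_le_mul_of_nonneg_left h3 (Nat.cast_nonneg _)
    _ ≤ _ := by
        rw [Finset.card_univ, Fintype.card_fun, Fintype.card_bool]
        exact_mod_cast h2

lemma exists_sorted :
    ∃ e : Fin (2 * k * 2 ^ t * t) ≃ Nd k t × Fin t, Monotone (own φ e) := by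
  have hc : Fintype.card (Nd k t × Fin t) = 2 * k * 2 ^ t * t := by
    simp only [Fintype.card_prod, Fintype.card_fin, Fintype.card_fun, Fintype.card_bool]
    ring
  let e0 := (Fintype.equivFinOfCardEq hc).symm
  exact ⟨(Tuple.sort (own φ e0)).trans e0, Tuple.monotone_sort (own φ e0)⟩

/-- Hamiltonicity on `n` vertices projects onto the hidden word function. -/
lemma exists_projection (hk : 0 < k) (ht : 0 < t) (n : ℕ) (hn : 30 * k * t * 2 ^ t ≤ n) :
    ∃ inp : {p : Fin n × Fin n // p.1 < p.2} → Finset (Var k t) → Bool,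
      (∀ i, Mono fun W => inp i W = true) ∧ (∀ i, Loc 1 fun W => inp i W = true) ∧
      ∀ W, (SimpleGraph.fromRel
        (fun i j : Fin n => ∃ h : i < j, inp ⟨(i, j), h⟩ W = true)).IsHamiltonian ↔
        ∃ m, yy φ m ⊆ W := by
  obtain ⟨M, hM, e, he⟩ : ∃ M, M = 2 * k * 2 ^ t * t ∧
      ∃ e : Fin M ≃ Nd k t × Fin t, Monotone (own φ e) := ⟨_, rfl, exists_sorted φ⟩
  have h2t : 1 ≤ 2 ^ t := Nat.one_le_two_pow
  have hM0 : 0 < M := by rw [hM]; positivity
  have hV : 3 * Fintype.card (Vx M k t) ≤ n := by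
    rw [card_vx, hM]
    refine le_trans ?_ hn
    have e1 : k * 2 ^ t ≤ k * t * 2 ^ t := by
      refine Nat.mul_le_mul_right _ (Nat.le_mul_of_pos_right _ ht)
    have e2 : k ≤ k * 2 ^ t := Nat.le_mul_of_pos_right _ h2t
    nlinarith
  let len : Vx M k t → ℕ := fun v => if v = Vx.P 0 then n - 3 * Fintype.card (Vx M k t) else 0
  have hcard : Fintype.card (Spl len) = n := by
    rw [Fintype.card_sigma]
    simp only [Fintype.card_fin, Finset.sum_add_distrib, len, Finset.sum_ite_eq', Finset.mem_univ,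
      if_true, Finset.sum_const, Finset.card_univ, smul_eq_mul]
    omega
  let q : Spl len ≃ Fin n := Fintype.equivFinOfCardEq hcard
  let Ad : Finset (Var k t) → Spl len → Spl len → Prop := fun W u v =>
    St (Arc φ e W) u v ∨ St (Arc φ e W) v u
  have hStm : ∀ W W' : Finset (Var k t), W ⊆ W' → ∀ u v : Spl len,
      St (Arc φ e W) u v → St (Arc φ e W') u v := by
    rintro W W' hW u v (h | h)
    exacts [Or.inl h, Or.inr ⟨h.1, h.2.1, arc_mono φ e _ _ hW h.2.2⟩]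
  have hStl : ∀ W : Finset (Var k t), ∀ u v : Spl len, St (Arc φ e W) u v →
      ∃ A, A ⊆ W ∧ A.card ≤ 1 ∧ St (Arc φ e A) u v := by
    rintro W u v (h | h)
    · exact ⟨∅, Finset.empty_subset _, by simp, Or.inl h⟩
    · obtain ⟨A, h1, h2, h3⟩ := arc_single φ e _ _ W h.2.2
      exact ⟨A, h1, h2, Or.inr ⟨h.1, h.2.1, h3⟩⟩
  have hirr : ∀ W u, ¬ Ad W u u := by
    rintro W u ((h | h) | (h | h)) <;> omega
  have hn3 : 3 ≤ Fintype.card (Fin n) := by
    rw [Fintype.card_fin]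
    have : 0 < Fintype.card (Vx M k t) := Fintype.card_pos_iff.2 ⟨Vx.P 0⟩
    omega
  have : Nonempty (Vx M k t) := ⟨Vx.P 0⟩
  refine ⟨fun p W => decide (Ad W (q.symm p.1.1) (q.symm p.1.2)), fun p A B hAB h => ?_,
    fun p W h => ?_, fun W => ?_⟩
  · simp only [decide_eq_true_eq] at h ⊢
    exact h.imp (hStm _ _ hAB _ _) (hStm _ _ hAB _ _)
  · simp only [decide_eq_true_eq] at h ⊢
    rcases h with h | h
    · obtain ⟨A, h1, h2, h3⟩ := hStl _ _ _ h
      exact ⟨A, h1, h2, Or.inl h3⟩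
    · obtain ⟨A, h1, h2, h3⟩ := hStl _ _ _ h
      exact ⟨A, h1, h2, Or.inr h3⟩
  · have hadj : ∀ i j : Fin n, (SimpleGraph.fromRel (fun i j : Fin n => ∃ _ : i < j,
        decide (Ad W (q.symm i) (q.symm j)) = true)).Adj i j ↔ Ad W (q.symm i) (q.symm j) := by
      intro i j
      simp only [SimpleGraph.fromRel_adj, decide_eq_true_eq]
      constructor
      · rintro ⟨-, ⟨-, h⟩ | ⟨-, h⟩⟩
        exacts [h, h.symm]
      · intro h
        have hne : i ≠ j := fun h' => hirr W _ (h' ▸ h)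
        refine ⟨hne, ?_⟩
        rcases lt_or_gt_of_ne hne with h' | h'
        exacts [Or.inl ⟨h', h⟩, Or.inr ⟨h', h.symm⟩]
    constructor
    · intro h
      have h1 : DHam (Ad W) :=
        (dham_of_isHamiltonian hn3 h).equiv q.symm fun a b hab => (hadj a b).1 hab
      obtain ⟨m, hm⟩ := gadget_sound φ e hM0 he (dham_of_split h1)
      refine ⟨m, fun x hx => ?_⟩
      obtain ⟨i, -, rfl⟩ := Finset.mem_image.1 hx
      exact hm i
    · rintro ⟨m, hm⟩
      have h1 := split_of_dham (len := len) (gadget_complete φ e hM0 (W := W) m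
        fun i => hm (Finset.mem_image_of_mem _ (Finset.mem_univ i)))
      refine isHamiltonian_of_dham hn3 (h1.equiv q fun a b hab => (hadj _ _).2 ?_)
      simpa using Or.inl hab

theorem param_bound (t w n : ℕ) (ht : 0 < t) (hw : 0 < w) (hA : 2 ^ 23 * t * w ≤ 4 ^ t)
    (hB : 2 ^ 11 * t ^ 4 * w * 2 ^ t ≤ n) (s : ℕ) (op : Fin s → Bool)
    (a b : Fin s → ({p : Fin n × Fin n // p.1 < p.2} ⊕ Fin s)) (o : Fin s)
    (hac : ∀ g j : Fin s, (a g = Sum.inr j → j < g) ∧ (b g = Sum.inr j → j < g))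
    (hF : ∀ x : {p : Fin n × Fin n // p.1 < p.2} → Bool, ∀ val : Fin s → Bool,
      (∀ g : Fin s, val g = if op g then (Sum.elim x val (a g) && Sum.elim x val (b g))
        else (Sum.elim x val (a g) || Sum.elim x val (b g))) →
      (val o = true ↔ (SimpleGraph.fromRel
        (fun i j : Fin n => ∃ h : i < j, x ⟨(i, j), h⟩ = true)).IsHamiltonian)) :
    (2 : ℝ) ^ w ≤ s := by
  set k := 64 * t ^ 3 * w with hk
  have hk0 : 0 < k := by positivity
  obtain ⟨φ, hφ⟩ := exists_expander k (2 * w) (Bool × Fin t) hk0 (by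
    simp only [Fintype.card_prod, Fintype.card_bool, Fintype.card_fin, hk]; ring_nf; rfl)
  obtain ⟨inp, hm, hl, hH⟩ := exists_projection φ hk0 ht n (by
    refine le_trans ?_ hB
    have : 30 * k * t * 2 ^ t = 1920 * (t ^ 4 * w * 2 ^ t) := by rw [hk]; ring
    have h2 : 2 ^ 11 * t ^ 4 * w * 2 ^ t = 2048 * (t ^ 4 * w * 2 ^ t) := by ring
    omega)
  set m := 64 * t * w with hmdef
  have hm0 : 0 < m := by positivity
  have hm1 : (1 : ℝ) ≤ m := by exact_mod_cast hm0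
  set p : ℝ := 1 / (4 * m) with hp
  have hp0 : 0 < p := by positivity
  have hp1 : p ≤ 1 := by rw [hp, div_le_one (by positivity)]; linarith
  have hpr : 1024 ≤ p * (4096 * m) := by rw [hp]; field_simp; norm_num
  have hX : Fintype.card (Var k t) = k * 4 ^ t := by
    simp only [Fintype.card_prod, Fintype.card_fin, Fintype.card_fun, Fintype.card_bool]
    rw [← mul_pow]
    norm_num
  have hν := nu_nonneg (X := Var k t) hp0.le hp1 m
  have hmain := approx_main (ν := nu p m) hν (pr_true p m)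
    (ε := (2 * w : ℕ) * (2 / 3) ^ m) (r := 4096 * m) (w := w) (by positivity) (by positivity) hw
    (by rw [hX]; exact Nat.succ_le_of_lt (by positivity))
    (fun j hj G hG hbig => by
      obtain ⟨B, h1, h2, h3⟩ := robust_sunflower hp0 hp1 hpr m j G hG hbig
      refine ⟨B, h1, h2, h3.trans (mul_le_mul_of_nonneg_right (Nat.cast_le.2 hj) (by positivity))⟩)
    (P := Finset.univ) Finset.univ_nonempty (y := yy φ)
    (ps_of_expander φ (by positivity) (by
      have : ((2 ^ 23 * t * w : ℕ) : ℝ) ≤ ((4 ^ t : ℕ) : ℝ) := Nat.cast_le.2 hA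
      rw [hmdef]
      push_cast at this ⊢
      linarith) hφ)
    inp hm hl (fun W => ∃ m, yy φ m ⊆ W) (fun m _ => ⟨m, Finset.Subset.refl _⟩) (by
      calc _ ≤ pr (nu p m) (fun W => ∃ z ∈ (Finset.univ : Finset (Fin k → Bool)), yy φ z ⊆ W) :=
            pr_mono hν fun W ⟨z, hz⟩ => ⟨z, Finset.mem_univ _, hz⟩
        _ ≤ ∑ z : Fin k → Bool, pr (nu p m) (fun W => yy φ z ⊆ W) := pr_exists_le hν _ _
        _ ≤ ∑ _z : Fin k → Bool, (1 / 4 : ℝ) ^ k := by
            refine Finset.sum_le_sum fun z _ => (pr_subset_le hp0.le hp1 m _).trans (le_of_eq ?_)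
            rw [card_yy, hp]; congr 1; field_simp
        _ = (1 / 2) ^ k := by
            rw [Finset.sum_const, Finset.card_univ, Fintype.card_fun, Fintype.card_bool,
              Fintype.card_fin, nsmul_eq_mul]
            push_cast
            rw [← mul_pow]; norm_num
        _ ≤ 1 / 2 := pow_le_of_le_one (by norm_num) (by norm_num) hk0.ne')
    op a b o hac (fun W val hval => (hF _ val hval).trans (hH W))
  rcases hmain with h | h
  · rw [hX] at h
    have e1 : ((k * 4 ^ t : ℕ) : ℝ) ≤ 2 ^ (6 * t) := by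
      have h1 : t ≤ 2 ^ t := Nat.lt_two_pow_self.le
      have h2 : k ≤ 2 ^ t * 2 ^ t * 4 ^ t := by
        calc k = t * t * (64 * t * w) := by rw [hk]; ring
          _ ≤ 2 ^ t * 2 ^ t * 4 ^ t := by
            refine Nat.mul_le_mul (Nat.mul_le_mul h1 h1) (le_trans ?_ hA)
            exact Nat.mul_le_mul_right _ (Nat.mul_le_mul_right _ (by norm_num))
      have h3 : k * 4 ^ t ≤ 2 ^ (6 * t) := by
        calc k * 4 ^ t ≤ 2 ^ t * 2 ^ t * 4 ^ t * 4 ^ t := Nat.mul_le_mul_right _ h2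
          _ = 2 ^ (6 * t) := by
            rw [show (4 : ℕ) = 2 ^ 2 by norm_num, ← pow_mul, ← pow_add, ← pow_add, ← pow_add]
            congr 1; ring
      exact_mod_cast h3
    have e2 : ((2 * w : ℕ) : ℝ) * 2 ≤ 2 ^ (2 * w) := by
      have h1 : w ≤ 2 ^ (w - 1) := by
        have := (Nat.lt_two_pow_self (n := w - 1))
        omega
      have h2 : 2 * w * 2 ≤ 2 ^ (2 * w) := by
        calc 2 * w * 2 = 4 * w := by ring
          _ ≤ 4 * 2 ^ (w - 1) := Nat.mul_le_mul_left _ h1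
          _ = 2 ^ (w - 1 + 2) := by ring
          _ ≤ _ := Nat.pow_le_pow_right (by norm_num) (by omega)
      exact_mod_cast h2
    have e3 : (2 * w + 1 : ℝ) ≤ 2 ^ (2 * w) := by
      have : 2 * w + 1 ≤ 2 ^ (2 * w) := Nat.lt_two_pow_self
      exact_mod_cast this
    have e4 : (2 / 3 : ℝ) ^ m * 2 ^ (32 * t * w) ≤ 1 := by
      rw [show m = 2 * (32 * t * w) by rw [hmdef]; ring, pow_mul, ← mul_pow]
      exact pow_le_one₀ (by norm_num) (by norm_num)
    have e5 : (2 : ℝ) ^ w * (2 ^ (2 * w) * (2 ^ (2 * w) * (2 ^ (6 * t)) ^ (2 * w))) ≤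
        2 ^ (32 * t * w) := by
      rw [← pow_mul, ← pow_add, ← pow_add, ← pow_add]
      refine pow_le_pow_right₀ (by norm_num) ?_
      nlinarith
    have e6 : (2 : ℝ) ^ w * (2 * (((2 * w : ℕ) : ℝ) * (2 / 3) ^ m *
        ((2 * w + 1) * ((k * 4 ^ t : ℕ) : ℝ) ^ (2 * w)))) ≤ 1 := by
      calc _ = (2 / 3 : ℝ) ^ m * ((2 : ℝ) ^ w * ((((2 * w : ℕ) : ℝ) * 2) *
            ((2 * w + 1) * ((k * 4 ^ t : ℕ) : ℝ) ^ (2 * w)))) := by ring
        _ ≤ (2 / 3 : ℝ) ^ m * ((2 : ℝ) ^ w *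
            (2 ^ (2 * w) * (2 ^ (2 * w) * (2 ^ (6 * t)) ^ (2 * w)))) := by gcongr
        _ ≤ (2 / 3 : ℝ) ^ m * 2 ^ (32 * t * w) := by gcongr
        _ ≤ 1 := e4
    set Z := ((2 * w : ℕ) : ℝ) * (2 / 3) ^ m *
        ((2 * w + 1) * ((k * 4 ^ t : ℕ) : ℝ) ^ (2 * w)) with hZ
    have hs : (0 : ℝ) ≤ s := Nat.cast_nonneg _
    have h2w : (0 : ℝ) < 2 ^ w := by positivity
    nlinarith
  · exact le_trans (pow_le_pow_left₀ (by norm_num) (by norm_num) w) h

lemma exists_params (n : ℕ) (hn : (6 * 2 ^ 14) ^ 6 ≤ n) :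
    ∃ t w : ℕ, 0 < t ∧ 0 < w ∧ 2 ^ 23 * t * w ≤ 4 ^ t ∧ 2 ^ 11 * t ^ 4 * w * 2 ^ t ≤ n ∧
      (1 / 2 ^ 27 : ℝ) * (n : ℝ) ^ (2 / 3 : ℝ) / Real.log n ^ 3 ≤ w / 2 := by
  have hn' : ((6 * 2 ^ 14 : ℝ)) ^ 6 ≤ n := by exact_mod_cast hn
  have hn0 : (0 : ℝ) < n := lt_of_lt_of_le (by norm_num) hn'
  set z : ℝ := (n : ℝ) ^ (1 / 6 : ℝ) with hz
  have hz0 : 0 < z := Real.rpow_pos_of_pos hn0 _
  have hz6 : z ^ 6 = n := by
    rw [hz, ← Real.rpow_natCast, ← Real.rpow_mul hn0.le]; norm_num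
  have hz4 : (n : ℝ) ^ (2 / 3 : ℝ) = z ^ 4 := by
    rw [hz, ← Real.rpow_natCast, ← Real.rpow_mul hn0.le]; norm_num
  have hzb : 6 * 2 ^ 14 ≤ z := by
    by_contra h
    have := pow_lt_pow_left₀ (not_le.1 h) hz0.le (by norm_num : (6 : ℕ) ≠ 0)
    linarith
  set L := Real.log n with hL
  have hL1 : L ≤ 6 * z := by
    have := Real.log_le_rpow_div hn0.le (by norm_num : (0 : ℝ) < 1 / 6)
    rw [← hz] at this
    linarith
  have hL2 : 1 ≤ L := by
    rw [hL, Real.le_log_iff_exp_le hn0]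
    exact Real.exp_one_lt_d9.le.trans (le_trans (by norm_num) hn')
  set x := z ^ 2 / L with hx
  have hx1 : 2 ^ 14 ≤ x := by
    rw [hx, le_div_iff₀ (by linarith)]
    nlinarith
  obtain ⟨t, ht1, ht2⟩ := exists_nat_pow_near (x := x) (y := 2) (by linarith) (by norm_num)
  have ht14 : 14 ≤ t := by
    by_contra h
    have : (2 : ℝ) ^ (t + 1) ≤ 2 ^ 14 := pow_le_pow_right₀ (by norm_num) (by omega)
    linarith
  have htL : (t : ℝ) ≤ L := by
    rw [hL, Real.le_log_iff_exp_le hn0, ← Real.exp_one_pow]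
    have h1 : x ≤ z ^ 2 := div_le_self (by positivity) hL2
    calc Real.exp 1 ^ t ≤ 8 ^ t := pow_le_pow_left₀ (Real.exp_pos _).le
          (Real.exp_one_lt_d9.le.trans (by norm_num)) t
      _ = (2 ^ t) ^ 3 := by rw [← pow_mul, mul_comm, pow_mul]; norm_num
      _ ≤ (z ^ 2) ^ 3 := pow_le_pow_left₀ (by positivity) (ht1.trans h1) 3
      _ = n := by rw [← hz6]; ring
  have hbig : 2 ^ 23 * t ≤ 4 ^ t := by
    clear ht1 ht2 htL
    induction t, ht14 using Nat.le_induction with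
    | base => norm_num
    | succ t ht ih => rw [pow_succ]; omega
  have hd : 0 < 2 ^ 23 * t := by omega
  set w := 4 ^ t / (2 ^ 23 * t) with hw
  have hw0 : 0 < w := Nat.div_pos hbig hd
  have hw1 : 2 ^ 23 * t * w ≤ 4 ^ t := Nat.mul_div_le _ _
  have hw2 : 4 ^ t ≤ 2 ^ 24 * t * w := by
    have := Nat.lt_mul_div_succ (4 ^ t) hd
    rw [← hw] at this
    nlinarith
  refine ⟨t, w, by omega, hw0, hw1, ?_, ?_⟩
  · have h1 : 2 ^ 11 * t ^ 4 * w * 2 ^ t ≤ t ^ 3 * (2 ^ t) ^ 3 := by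
      calc 2 ^ 11 * t ^ 4 * w * 2 ^ t = t ^ 3 * 2 ^ t * (2 ^ 11 * t * w) := by ring
        _ ≤ t ^ 3 * 2 ^ t * 4 ^ t := by
            refine Nat.mul_le_mul_left _ (le_trans ?_ hw1)
            exact Nat.mul_le_mul_right _ (Nat.mul_le_mul_right _ (by norm_num))
        _ = _ := by rw [show (4 : ℕ) = 2 * 2 by norm_num, mul_pow]; ring
    have h2 : ((t ^ 3 * (2 ^ t) ^ 3 : ℕ) : ℝ) ≤ n := by
      push_cast
      calc (t : ℝ) ^ 3 * (2 ^ t) ^ 3 ≤ L ^ 3 * x ^ 3 := by gcongr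
        _ = (n : ℝ) := by rw [hx, ← hz6]; field_simp
    exact h1.trans (by exact_mod_cast h2)
  · have h1 : (4 : ℝ) ^ t ≤ 2 ^ 24 * t * w := by exact_mod_cast hw2
    have h2 : x ^ 2 ≤ 4 * 4 ^ t := by
      calc x ^ 2 ≤ (2 ^ (t + 1)) ^ 2 := pow_le_pow_left₀ (by positivity) ht2.le 2
        _ = 4 * 4 ^ t := by rw [← pow_mul, mul_comm, pow_mul, pow_succ]; norm_num; ring
    have h3 : z ^ 4 = x ^ 2 * L ^ 2 := by rw [hx]; field_simp
    have hw' : (0 : ℝ) ≤ w := Nat.cast_nonneg _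
    have h4 : x ^ 2 ≤ 2 ^ 26 * L * w := by nlinarith
    rw [hz4, h3, div_le_iff₀ (by positivity)]
    have h5 : x ^ 2 * L ^ 2 ≤ 2 ^ 26 * L * w * L ^ 2 :=
      mul_le_mul_of_nonneg_right h4 (by positivity)
    nlinarith

end Pool.Agent.MP_6b3410_lc.H5
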